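import Pool.Agent.T9h56.SQ.Psi
import Pool.Agent.T9h56.MT.Fin

/-!
# Compactness for points of bounded height with values in a closed cone
-/

set_option autoImplicit false

namespace Pool.Agent.T9h56.SQ

open Polynomial Filter MeasureTheory Topology Pool.Agent.H261R2.CM Pool.Agent.T9h56.MT

noncomputable section

variable {N : ℕ}

/-- A closed cone: a closed set stable under multiplication with complex numbers. -/
def IsCone (V : Set (Fin N → ℂ)) : Prop :=
  IsClosed V ∧ ∀ (z : ℂ) (c : Fin N → ℂ), c ∈ V → z • c ∈ V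

/-- the values of the vector lie in the cone -/
def Ink (V : Set (Fin N → ℂ)) {k : ℕ} (P : Fin N → MvPolynomial (Fin k) ℤ) : Prop :=
  ∀ t, (fun i => tv (P i) t) ∈ V

/-- the same in one variable -/
def In1 (V : Set (Fin N → ℂ)) (a : Fin N → ℤ[X]) : Prop := ∀ t, (fun i => ev1 (a i) t) ∈ V

theorem lim_cone {k : ℕ} (𝓕 : Filter ℕ) [𝓕.NeBot] (e : ℕ → Fin k → ℕ)
    (he : AsympIndep 𝓕 e) (V : Set (Fin N → ℂ)) (hV : IsClosed V)
    (C : Fin N → MvPolynomial (Fin k) ℤ)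
    (h : ∀ᶠ n in 𝓕, In1 V fun i => spec (e n) (C i)) : Ink V C := by
  have hne : V.Nonempty := by
    obtain ⟨n, hn⟩ := h.exists
    exact ⟨_, hn 0⟩
  set g : UnitAddTorus (Fin k) → ℝ := fun x => Metric.infDist (fun i => F_G (C i) x) V with hgdef
  have hg : Continuous g :=
    (Metric.continuous_infDist_pt V).comp (continuous_pi fun i => (F_G (C i)).continuous)
  have h1 := F_equidist_real 𝓕 e he g hg
  have h0 : ∫ t in Set.Icc (0 : Fin k → ℝ) 1, g (F_pt t) = 0 := by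
    refine tendsto_nhds_unique h1 ?_
    refine Tendsto.congr' ?_ tendsto_const_nhds
    filter_upwards [h] with n hn
    symm
    have : ∀ t : ℝ, g (F_pt (F_cv (e n) t)) = 0 := by
      intro t
      have h2 := hn t
      simp only [F_ev1, F_tv] at h2
      simp only [hgdef]
      exact Metric.infDist_zero_of_mem h2
    simp [this]
  have hgc : Continuous fun t => g (F_pt t) := hg.comp F_continuous_pt
  rw [setIntegral_eq_zero_iff_of_nonneg_ae (Eventually.of_forall fun t => Metric.infDist_nonneg)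
    hgc.integrableOn_Icc] at h0
  have hsub : Set.Icc (0 : Fin k → ℝ) 1 ⊆ closure (interior (Set.Icc (0 : Fin k → ℝ) 1)) := by
    rw [← Set.pi_univ_Icc, interior_pi_set Set.finite_univ, closure_pi_set]
    apply Set.pi_mono
    intro i _
    simp only [Pi.zero_apply, Pi.one_apply]
    rw [interior_Icc, closure_Ioo (by norm_num)]
  have h2 : Set.EqOn (fun t => g (F_pt t)) 0 (Set.Icc (0 : Fin k → ℝ) 1) :=
    Measure.eqOn_of_ae_eq h0 hgc.continuousOn continuousOn_const hsub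
  intro t
  have h3 := h2 (x := fun i => Int.fract (t i))
    ⟨fun i => by simp [Int.fract_nonneg], fun i => by simpa using (Int.fract_lt_one (t i)).le⟩
  simp only [Pi.zero_apply] at h3
  rw [← F_periodic t] at h3
  simp only [hgdef] at h3
  have h4 : (fun i => tv (C i) t) = fun i => F_G (C i) (F_pt t) := by
    funext i
    exact F_tv _ _
  rw [h4]
  exact (hV.mem_iff_infDist_zero hne).2 h3

theorem In1_of_mul {V : Set (Fin N → ℂ)} (hV : IsCone V) (g : ℤ[X]) (hg : g ≠ 0)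
    (a b : Fin N → ℤ[X]) (h : ∀ i, b i = g * a i) (hb : In1 V b) : In1 V a := by
  have h1 : ∀ᵐ t : ℝ, (fun i => ev1 (a i) t) ∈ V := by
    filter_upwards [D_ae_ne g hg] with t ht
    have h2 : (fun i => ev1 (a i) t) = (ev1 g t)⁻¹ • (fun i => ev1 (b i) t) := by
      funext i
      rw [Pi.smul_apply, smul_eq_mul, h i, I1_ev1_mul, ← mul_assoc, inv_mul_cancel₀ ht, one_mul]
    rw [h2]
    exact hV.2 _ _ (hb t)
  have h2 : Dense {t : ℝ | (fun i => ev1 (a i) t) ∈ V} := Measure.dense_of_ae h1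
  have h3 : IsClosed {t : ℝ | (fun i => ev1 (a i) t) ∈ V} :=
    hV.1.preimage (continuous_pi fun i => D_continuous_ev1 (a i))
  intro t
  have h4 := h2.closure_eq
  rw [h3.closure_eq] at h4
  have h5 : t ∈ {t : ℝ | (fun i => ev1 (a i) t) ∈ V} := by
    rw [h4]
    exact Set.mem_univ t
  exact h5

theorem Prim.exists_ne {R : Type*} [CommRing R] [Nontrivial R] {ι : Type*} {v : ι → R}
    (h : Prim v) : ∃ i, v i ≠ 0 := by
  by_contra hcon
  push Not at hcon
  exact not_isUnit_zero (h 0 fun i => by rw [hcon i])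

theorem compact (V : Set (Fin N → ℂ)) (hV : IsCone V) (a : ℕ → Fin N → ℤ[X])
    (hprim : ∀ n, Prim (a n)) (hsat : ∀ n, In1 V (a n)) (ψ₀ : (Fin N → ℂ) → ℝ)
    (hψ₀ : IsMetric ψ₀) (K : ℝ) (hK : ∀ n, H1 ψ₀ (a n) ≤ K) :
    ∃ (k : ℕ) (C : Fin N → MvPolynomial (Fin k) ℤ), Prim C ∧ Ink V C ∧
      ∀ ψ : (Fin N → ℂ) → ℝ, IsMetric ψ →
        Tendsto (fun n => H1 ψ (a n)) (hyperfilter ℕ : Filter ℕ) (𝓝 (Hk ψ C)) := by
  have ha0 : ∀ n, ∃ i, a n i ≠ 0 := fun n => Prim.exists_ne (hprim n)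
  obtain ⟨c, hc⟩ := hv_le_H1 hψ₀
  obtain ⟨k, e, C, Q, hC0, hC, he, _, hQ, hQlim⟩ := vec_compact a ha0 hprim (K + c)
    (fun n => (hc (a n) (ha0 n)).trans (by linarith [hK n]))
  refine ⟨k, C, hC, lim_cone (hyperfilter ℕ : Filter ℕ) e he V hV.1 C ?_, fun ψ hψ => ?_⟩
  · filter_upwards [hQ] with n hn
    intro t
    have h1 : (fun i => ev1 (spec (e n) (C i)) t) = ev1 (Q n) t • (fun i => ev1 (a n i) t) := by
      funext i
      rw [Pi.smul_apply, smul_eq_mul, hn.2 i, I1_ev1_mul]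
    rw [h1]
    exact hV.2 _ _ (hsat n t)
  · have h1 := (H_lim hψ (hyperfilter ℕ : Filter ℕ) e he C hC0).sub hQlim
    rw [sub_zero] at h1
    refine h1.congr' ?_
    filter_upwards [hQ] with n hn
    obtain ⟨i, hi⟩ := ha0 n
    rw [H1_mul hψ (Q n) hn.1 (a n) (fun i => spec (e n) (C i)) i hi hn.2]
    ring

/-- approximation by one-variable points -/
theorem approx {k : ℕ} (V : Set (Fin N → ℂ)) (hV : IsCone V)
    (P : Fin N → MvPolynomial (Fin k) ℤ) (hP : Prim P) (hsat : Ink V P) {ι : Type*} [Finite ι]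
    (ψ : ι → (Fin N → ℂ) → ℝ) (hψ : ∀ j, IsMetric (ψ j)) (ε : ℝ) (hε : 0 < ε) :
    ∃ a : Fin N → ℤ[X], Prim a ∧ In1 V a ∧ ∀ j, |H1 (ψ j) a - Hk (ψ j) P| < ε := by
  obtain ⟨i0, hi0⟩ := Prim.exists_ne hP
  set e : ℕ → Fin k → ℕ := fun (n : ℕ) (i : Fin k) => n ^ (i : ℕ) with he
  have he1 : AsympIndep (hyperfilter ℕ : Filter ℕ) e := fun s hs =>
    I2_hyper_le ((asympIndep_pow k) s hs)
  set v : ℕ → Fin N → ℤ[X] := fun M i => spec (e M) (P i) with hv
  have hsel : ∀ M, ∃ (g : ℤ[X]) (a : Fin N → ℤ[X]), g ≠ 0 ∧ (∃ i, a i ≠ 0) ∧ Prim a ∧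
      (v M i0 ≠ 0 → ∀ i, v M i = g * a i) := by
    intro M
    by_cases h : v M i0 ≠ 0
    · obtain ⟨g, hg, a, ha, hp⟩ := exists_prim (v M) ⟨i0, h⟩
      refine ⟨g, a, hg, ⟨i0, ?_⟩, hp, fun _ => ha⟩
      intro h0
      exact h (by rw [ha i0, h0, mul_zero])
    · refine ⟨1, fun _ => 1, one_ne_zero, ⟨i0, one_ne_zero⟩, fun π hπ => ?_, fun h' => absurd h' h⟩
      exact isUnit_of_dvd_one (hπ i0)
  choose g a hg ha0 hap hga using hsel
  have hgood : ∀ᶠ M in (hyperfilter ℕ : Filter ℕ), v M i0 ≠ 0 := spec_ne_zero _ e he1 (P i0) hi0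
  have hglim : Tendsto (fun M => Real.log (m1 (g M))) (hyperfilter ℕ : Filter ℕ) (𝓝 0) := by
    refine gcd_lim P ⟨i0, hi0⟩ hP e he1 g ?_
    filter_upwards [hgood] with M hM
    exact ⟨hg M, fun i => ⟨a M i, hga M hM i⟩⟩
  have hlim : ∀ j, Tendsto (fun M => H1 (ψ j) (a M)) (hyperfilter ℕ : Filter ℕ)
      (𝓝 (Hk (ψ j) P)) := by
    intro j
    have h1 := (H_lim (hψ j) (hyperfilter ℕ : Filter ℕ) e he1 P ⟨i0, hi0⟩).sub hglim
    rw [sub_zero] at h1
    refine h1.congr' ?_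
    filter_upwards [hgood] with M hM
    obtain ⟨i, hi⟩ := ha0 M
    rw [H1_mul (hψ j) (g M) (hg M) (a M) (fun i => spec (e M) (P i)) i hi (hga M hM)]
    ring
  have hev : ∀ᶠ M in (hyperfilter ℕ : Filter ℕ), ∀ j, |H1 (ψ j) (a M) - Hk (ψ j) P| < ε := by
    rw [Filter.eventually_all]
    intro j
    have h1 := (Metric.tendsto_nhds.1 (hlim j)) ε hε
    filter_upwards [h1] with M hM
    rwa [Real.dist_eq] at hM
  obtain ⟨M, h1, h2⟩ := (hev.and hgood).exists
  refine ⟨a M, hap M, In1_of_mul hV (g M) (hg M) (a M) (v M) (hga M h2) fun t => ?_, h1⟩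
  have h3 : (fun i => ev1 (v M i) t) = fun i => tv (P i) (F_cv (e M) t) := by
    funext i
    exact F_ev1 _ _ _
  rw [h3]
  exact hsat _

/-- the set of the heights -/
def Spectrum (V : Set (Fin N → ℂ)) {ι : Type*} (ψ : ι → (Fin N → ℂ) → ℝ) :
    Set (ι → ℝ) :=
  {x | ∃ (k : ℕ) (P : Fin N → MvPolynomial (Fin k) ℤ), Prim P ∧ Ink V P ∧ ∀ j, x j = Hk (ψ j) P}

theorem closed_Spectrum (V : Set (Fin N → ℂ)) (hV : IsCone V) {ι : Type*} [Finite ι]
    (ψ : ι → (Fin N → ℂ) → ℝ) (hψ : ∀ j, IsMetric (ψ j)) : IsClosed (Spectrum V ψ) := by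
  cases nonempty_fintype ι
  rcases isEmpty_or_nonempty ι with hι | ⟨⟨j0⟩⟩
  · exact (Set.subsingleton_of_subsingleton).isClosed
  refine IsSeqClosed.isClosed ?_
  intro x μ hx hlim
  choose kk P hP hsat hxP using hx
  choose a ha hasat hclose using fun n => approx V hV (P n) (hP n) (hsat n) ψ hψ
    (1 / ((n : ℝ) + 1)) (by positivity)
  have hlimj : ∀ j, Tendsto (fun n => x n j) atTop (𝓝 (μ j)) := fun j =>
    (tendsto_pi_nhds.1 hlim) j
  obtain ⟨K, hK⟩ := (hlimj j0).bddAbove_range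
  obtain ⟨k, C, hC, hCsat, hClim⟩ := compact V hV a ha hasat (ψ j0) (hψ j0) (K + 1) (fun n => by
    have h1 := (abs_lt.1 (hclose n j0)).2
    have h2 : x n j0 ≤ K := hK ⟨n, rfl⟩
    rw [hxP n j0] at h2
    have h3 : 1 / ((n : ℝ) + 1) ≤ 1 := by
      rw [div_le_one (by positivity)]
      have : (0 : ℝ) ≤ n := Nat.cast_nonneg n
      linarith
    linarith)
  refine ⟨k, C, hC, hCsat, fun j => ?_⟩
  refine tendsto_nhds_unique ?_ (hClim (ψ j) (hψ j))
  have h2 : Tendsto (fun n => H1 (ψ j) (a n) - x n j) (hyperfilter ℕ : Filter ℕ) (𝓝 0) := by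
    refine squeeze_zero_norm' (Eventually.of_forall fun n => ?_)
      (hyper_tendsto (tendsto_one_div_add_atTop_nhds_zero_nat (𝕜 := ℝ)))
    rw [Real.norm_eq_abs, hxP n j]
    exact (hclose n j).le
  have h3 := h2.add (hyper_tendsto (hlimj j))
  rw [zero_add] at h3
  refine h3.congr fun n => ?_
  ring

end

end Pool.Agent.T9h56.SQ
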