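import Pool.Agent.T9h56.SQ.Rank

/-!
# Families whose common divisors have Mahler measure one
-/

set_option autoImplicit false

namespace Pool.Agent.T9h56.SQ

open Filter MeasureTheory Topology Pool.Agent.H261R2.CM Pool.Agent.T9h56.MT

noncomputable section

variable {N k : ℕ}

/-- all common divisors have Mahler measure one -/
def Cop {ι : Type*} (P : ι → MvPolynomial (Fin k) ℤ) : Prop := ∀ R, (∀ i, R ∣ P i) → mM R = 1

theorem mM_unit {u : MvPolynomial (Fin k) ℤ} (hu : IsUnit u) : mM u = 1 := by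
  unfold mM
  simp [J.norm_tv_isUnit hu]

theorem Prim.cop {ι : Type*} {P : ι → MvPolynomial (Fin k) ℤ} (h : Prim P) : Cop P :=
  fun R hR => mM_unit (h R hR)

theorem Cop.exists_ne {ι : Type*} {P : ι → MvPolynomial (Fin k) ℤ} (h : Cop P) : ∃ i, P i ≠ 0 := by
  by_contra hcon
  push Not at hcon
  have h1 := h (MvPolynomial.C 2) fun i => by rw [hcon i]; exact dvd_zero _
  rw [J.mM_C (by norm_num)] at h1
  norm_num at h1

theorem Cop.reduce {ι : Type*} [Fintype ι] {P : ι → MvPolynomial (Fin k) ℤ} (h : Cop P) :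
    ∃ (g : MvPolynomial (Fin k) ℤ) (w : ι → MvPolynomial (Fin k) ℤ), g ≠ 0 ∧ mM g = 1 ∧
      (∀ i, P i = g * w i) ∧ Prim w := by
  obtain ⟨g, hg, w, hw, hp⟩ := exists_prim P h.exists_ne
  exact ⟨g, w, hg, h g fun i => ⟨w i, hw i⟩, hw, hp⟩

theorem Ink_of_mul {V : Set (Fin N → ℂ)} (hV : IsCone V) {g : MvPolynomial (Fin k) ℤ} (hg : g ≠ 0)
    {w P : Fin N → MvPolynomial (Fin k) ℤ} (h : ∀ i, P i = g * w i) (hP : Ink V P) : Ink V w := by
  have hne : V.Nonempty := ⟨_, hP 0⟩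
  set G : UnitAddTorus (Fin k) → ℝ := fun x => Metric.infDist (fun i => F_G (w i) x) V with hGdef
  have hG : Continuous G :=
    (Metric.continuous_infDist_pt V).comp (continuous_pi fun i => (F_G (w i)).continuous)
  have h0 : (fun t => G (F_pt t)) =ᵐ[(volume : Measure (Fin k → ℝ)).restrict (Set.Icc 0 1)] 0 := by
    filter_upwards [F_zero_null hg] with t ht
    have h2 : (fun i => F_G (w i) (F_pt t)) = (tv g t)⁻¹ • (fun i => tv (P i) t) := by
      funext i
      rw [← F_tv, Pi.smul_apply, smul_eq_mul, h i, J.tv_mul, ← mul_assoc, inv_mul_cancel₀ ht,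
        one_mul]
    simp only [hGdef, Pi.zero_apply]
    rw [h2]
    exact Metric.infDist_zero_of_mem (hV.2 _ _ (hP t))
  have hgc : Continuous fun t => G (F_pt t) := hG.comp F_continuous_pt
  have hsub : Set.Icc (0 : Fin k → ℝ) 1 ⊆ closure (interior (Set.Icc (0 : Fin k → ℝ) 1)) := by
    rw [← Set.pi_univ_Icc, interior_pi_set Set.finite_univ, closure_pi_set]
    apply Set.pi_mono
    intro i _
    simp only [Pi.zero_apply, Pi.one_apply]
    rw [interior_Icc, closure_Ioo (by norm_num)]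
  have h2 : Set.EqOn (fun t => G (F_pt t)) 0 (Set.Icc (0 : Fin k → ℝ) 1) :=
    Measure.eqOn_of_ae_eq h0 hgc.continuousOn continuousOn_const hsub
  intro t
  have h3 := h2 (x := fun i => Int.fract (t i))
    ⟨fun i => by simp [Int.fract_nonneg], fun i => by simpa using (Int.fract_lt_one (t i)).le⟩
  simp only [Pi.zero_apply] at h3
  rw [← F_periodic t] at h3
  simp only [hGdef] at h3
  have h4 : (fun i => tv (w i) t) = fun i => F_G (w i) (F_pt t) := by
    funext i
    exact F_tv _ _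
  rw [h4]
  exact (hV.1.mem_iff_infDist_zero hne).2 h3

theorem Hk_integrable {ψ : (Fin N → ℂ) → ℝ} (h : IsMetric ψ)
    (C : Fin N → MvPolynomial (Fin k) ℤ) (i0 : Fin N) (hi0 : C i0 ≠ 0) :
    IntegrableOn (fun t => Real.log (ψ fun i => tv (C i) t)) (Set.Icc (0 : Fin k → ℝ) 1) := by
  obtain ⟨c1, c2, hc1, hc2, hb⟩ := h.bounds
  have hcont : Continuous fun t => ψ fun i => tv (C i) t :=
    h.1.comp (continuous_pi fun i => F_continuous_tv (C i))
  obtain ⟨K, hK⟩ := (isCompact_Icc (a := (0 : Fin k → ℝ)) (b := 1)).exists_bound_of_continuousOn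
    hcont.continuousOn
  refine Integrable.mono' (((F_integrable hi0).abs.add (integrable_const |Real.log c1|)).add
    (integrable_const (Real.log (|K| + 1)))) ?_ ?_
  · exact (Real.measurable_log.comp hcont.measurable).aestronglyMeasurable
  · filter_upwards [F_zero_null hi0, ae_restrict_mem measurableSet_Icc] with t ht htI
    have h2 : 0 < ‖tv (C i0) t‖ := norm_pos_iff.mpr ht
    have h3 : c1 * ‖tv (C i0) t‖ ≤ ψ fun i => tv (C i) t :=
      (mul_le_mul_of_nonneg_left (norm_le_pi_norm (fun i => tv (C i) t : Fin N → ℂ) i0)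
        hc1.le).trans (hb _).1
    have h4 := Real.log_le_log (mul_pos hc1 h2) h3
    rw [Real.log_mul hc1.ne' h2.ne'] at h4
    have h7 := hK t htI
    rw [Real.norm_eq_abs] at h7
    have h8 : (ψ fun i => tv (C i) t) ≤ |K| + 1 := by
      have := le_abs_self (ψ fun i => tv (C i) t)
      have := le_abs_self K
      linarith
    have h9 : Real.log (ψ fun i => tv (C i) t) ≤ Real.log (|K| + 1) :=
      Real.log_le_log (lt_of_lt_of_le (mul_pos hc1 h2) h3) h8
    have h10 : 0 ≤ Real.log (|K| + 1) := Real.log_nonneg (by linarith [abs_nonneg K])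
    simp only [Pi.add_apply]
    rw [Real.norm_eq_abs, abs_le]
    have h11 := neg_abs_le (Real.log ‖tv (C i0) t‖)
    have h12 := abs_nonneg (Real.log ‖tv (C i0) t‖)
    have h13 := neg_abs_le (Real.log c1)
    have h14 := abs_nonneg (Real.log c1)
    constructor
    · linarith
    · linarith

theorem Hk_mul {ψ : (Fin N → ℂ) → ℝ} (h : IsMetric ψ) {g : MvPolynomial (Fin k) ℤ} (hg : g ≠ 0)
    {w P : Fin N → MvPolynomial (Fin k) ℤ} (hw : ∃ i, w i ≠ 0) (hP : ∀ i, P i = g * w i) :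
    Hk ψ P = Real.log (mM g) + Hk ψ w := by
  obtain ⟨i, hi⟩ := hw
  unfold Hk
  rw [log_mM, ← integral_add (F_integrable hg) (Hk_integrable h w i hi)]
  refine integral_congr_ae ?_
  filter_upwards [F_zero_null hg, F_zero_null hi] with t h1 h2
  have h3 : (fun i => tv (P i) t) = tv g t • (fun i => tv (w i) t) := by
    funext j
    rw [hP j, J.tv_mul]
    rfl
  have h4 : 0 < ψ fun i => tv (w i) t := h.2.2 _ (nonzero_of_ne i h2)
  rw [h3, h.2.1, Real.log_mul (norm_ne_zero_iff.2 h1) h4.ne']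

/-- the set of the heights -/
def Spectrum' (V : Set (Fin N → ℂ)) {ι : Type*} (ψ : ι → (Fin N → ℂ) → ℝ) :
    Set (ι → ℝ) :=
  {x | ∃ (k : ℕ) (P : Fin N → MvPolynomial (Fin k) ℤ), Cop P ∧ Ink V P ∧ ∀ j, x j = Hk (ψ j) P}

theorem Spectrum'_eq (V : Set (Fin N → ℂ)) (hV : IsCone V) {ι : Type*}
    (ψ : ι → (Fin N → ℂ) → ℝ) (hψ : ∀ j, IsMetric (ψ j)) : Spectrum' V ψ = Spectrum V ψ := by
  ext x
  constructor
  · rintro ⟨k, P, hP, hPV, hx⟩
    obtain ⟨g, w, hg, hg1, hw, hprim⟩ := hP.reduce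
    refine ⟨k, w, hprim, Ink_of_mul hV hg hw hPV, fun j => ?_⟩
    rw [hx j, Hk_mul (hψ j) hg (Prim.exists_ne hprim) hw, hg1, Real.log_one, zero_add]
  · rintro ⟨k, P, hP, hPV, hx⟩
    exact ⟨k, P, Prim.cop hP, hPV, hx⟩

/-- the measures of the values of a form at the coprime vectors with values in a cone -/
def FormSet' (Φ : MvPolynomial (Fin N ⊕ Fin N) ℤ) (V : Set (Fin N → ℂ)) : Set ℝ :=
  {x | ∃ (k : ℕ) (P : Fin N → MvPolynomial (Fin k) ℤ) (F : MvPolynomial (Fin k) ℤ), Cop P ∧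
    Ink V P ∧ (∀ t, ‖tv F t‖ = ‖hval Φ fun i => tv (P i) t‖) ∧ x = mM F}

theorem mM_pow {g : MvPolynomial (Fin k) ℤ} (hg : g ≠ 0) (d : ℕ) : mM (g ^ d) = mM g ^ d := by
  induction d with
  | zero =>
    rw [pow_zero, pow_zero]
    exact mM_unit isUnit_one
  | succ d ih => rw [pow_succ, mM_mul _ _ (pow_ne_zero d hg) hg, ih, pow_succ]

theorem FormSet'_eq {Φ : MvPolynomial (Fin N ⊕ Fin N) ℤ} {d₁ d₂ : ℕ}
    (h : Bihom Φ d₁ d₂) (V : Set (Fin N → ℂ)) (hV : IsCone V)
    (hani : ∀ c ∈ V, c ≠ 0 → hval Φ c ≠ 0) : FormSet' Φ V = FormSet Φ V := by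
  ext x
  constructor
  · rintro ⟨k, P, F, hP, hPV, hF, rfl⟩
    obtain ⟨g, w, hg, hg1, hw, hprim⟩ := hP.reduce
    have hwV := Ink_of_mul hV hg hw hPV
    obtain ⟨F', hF'⟩ := exists_poly h w
    have hF'0 := form_ne_zero hani hprim hwV hF'
    refine ⟨k, w, F', hprim, hwV, hF', ?_⟩
    have h1 : mM F = mM (g ^ (d₁ + d₂) * F') := by
      apply J.mM_congr
      intro t
      have h3 : (fun i => tv (P i) t) = tv g t • (fun i => tv (w i) t) := by
        funext j
        rw [hw j, J.tv_mul]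
        rfl
      have h4 : tv (g ^ (d₁ + d₂)) t = tv g t ^ (d₁ + d₂) := by
        rw [J.tv_eq, map_pow]
        rfl
      rw [hF t, h3, hval_smul h, J.tv_mul, norm_mul, hF' t, h4, norm_pow]
    rw [h1, mM_mul _ _ (pow_ne_zero _ hg) hF'0, mM_pow hg, hg1, one_pow, one_mul]
  · rintro ⟨k, P, F, hP, hPV, hF, hx⟩
    exact ⟨k, P, F, Prim.cop hP, hPV, hF, hx⟩

end

end Pool.Agent.T9h56.SQ
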