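import Pool.Agent.T9h56.SQ.Comp
import Pool.Agent.H887R3.LW.MV9

/-!
# Measures of the values of Hermitian forms without zeros on a cone
-/

set_option autoImplicit false

namespace Pool.Agent.T9h56.SQ

open Filter MeasureTheory Topology Pool.Agent.H261R2.CM Pool.Agent.T9h56.MT
open scoped Pointwise

noncomputable section

variable {N : ℕ}

/-- the value `Φ(c, c̄)` -/
def hval (Φ : MvPolynomial (Fin N ⊕ Fin N) ℤ) (c : Fin N → ℂ) : ℂ :=
  MvPolynomial.eval₂ (Int.castRingHom ℂ) (Sum.elim c fun i => (starRingEnd ℂ) (c i)) Φ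

/-- bihomogeneous of bidegree `(d₁, d₂)` -/
def Bihom (Φ : MvPolynomial (Fin N ⊕ Fin N) ℤ) (d₁ d₂ : ℕ) : Prop :=
  ∀ s ∈ Φ.support, ∑ i, s (Sum.inl i) = d₁ ∧ ∑ i, s (Sum.inr i) = d₂

theorem eval_bihom {R : Type*} [CommRing R] {Φ : MvPolynomial (Fin N ⊕ Fin N) ℤ} {d₁ d₂ : ℕ}
    (h : Bihom Φ d₁ d₂) (g w : R) (a b : Fin N → R) :
    MvPolynomial.eval₂ (Int.castRingHom R) (Sum.elim (fun i => g * a i) fun i => w * b i) Φ =
      g ^ d₁ * w ^ d₂ * MvPolynomial.eval₂ (Int.castRingHom R) (Sum.elim a b) Φ := by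
  rw [MvPolynomial.eval₂_eq', MvPolynomial.eval₂_eq', Finset.mul_sum]
  refine Finset.sum_congr rfl fun s hs => ?_
  obtain ⟨h1, h2⟩ := h s hs
  rw [Fintype.prod_sum_type, Fintype.prod_sum_type]
  simp only [Sum.elim_inl, Sum.elim_inr, mul_pow, Finset.prod_mul_distrib,
    Finset.prod_pow_eq_pow_sum, h1, h2]
  ring

theorem hval_smul {Φ : MvPolynomial (Fin N ⊕ Fin N) ℤ} {d₁ d₂ : ℕ}
    (h : Bihom Φ d₁ d₂) (a : ℂ) (c : Fin N → ℂ) :
    ‖hval Φ (a • c)‖ = ‖a‖ ^ (d₁ + d₂) * ‖hval Φ c‖ := by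
  have h1 := eval_bihom h a ((starRingEnd ℂ) a) c (fun i => (starRingEnd ℂ) (c i))
  have h2 : hval Φ (a • c) = MvPolynomial.eval₂ (Int.castRingHom ℂ)
      (Sum.elim (fun i => a * c i) fun i => (starRingEnd ℂ) a * (starRingEnd ℂ) (c i)) Φ := by
    unfold hval
    congr 2
    funext i
    rw [Pi.smul_apply, smul_eq_mul, map_mul]
  rw [h2, h1, norm_mul, norm_mul, norm_pow, norm_pow, RCLike.norm_conj, pow_add]
  rfl

theorem hval_cont (Φ : MvPolynomial (Fin N ⊕ Fin N) ℤ) : Continuous (hval Φ) := by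
  have h1 : hval Φ = fun c => ∑ s ∈ Φ.support, ((Int.castRingHom ℂ) (Φ.coeff s)) *
      ∏ i, (Sum.elim c (fun i => (starRingEnd ℂ) (c i)) i) ^ s i := by
    funext c
    unfold hval
    rw [MvPolynomial.eval₂_eq']
  rw [h1]
  refine continuous_finsetSum _ fun s _ => continuous_const.mul ?_
  refine continuous_finsetProd _ fun i _ => Continuous.pow ?_ _
  cases i with
  | inl i => exact continuous_apply i
  | inr i => exact Complex.continuous_conj.comp (continuous_apply i)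

theorem smul_cone {V : Set (Fin N → ℂ)} (hV : IsCone V) {a : ℂ} (ha : a ≠ 0) : a • V = V := by
  ext c
  rw [Set.mem_smul_set]
  constructor
  · rintro ⟨v, hv, rfl⟩
    exact hV.2 a v hv
  · intro hc
    exact ⟨a⁻¹ • c, hV.2 _ _ hc, smul_inv_smul₀ ha c⟩

/-- the metric of a form without zeros on a cone -/
def met (V : Set (Fin N → ℂ)) (Φ : MvPolynomial (Fin N ⊕ Fin N) ℤ) (d : ℕ) (c : Fin N → ℂ) : ℝ :=
  (‖hval Φ c‖ + Metric.infDist c V ^ d) ^ (1 / (d : ℝ))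

theorem met_isMetric {V : Set (Fin N → ℂ)} (hV : IsCone V) (hne : V.Nonempty)
    {Φ : MvPolynomial (Fin N ⊕ Fin N) ℤ} {d₁ d₂ : ℕ}
    (h : Bihom Φ d₁ d₂) (hd : 0 < d₁ + d₂) (hani : ∀ c ∈ V, c ≠ 0 → hval Φ c ≠ 0) :
    IsMetric (met V Φ (d₁ + d₂)) := by
  have hd' : (0 : ℝ) < ((d₁ + d₂ : ℕ) : ℝ) := by exact_mod_cast hd
  have h0 : (0 : Fin N → ℂ) ∈ V := by
    obtain ⟨v, hv⟩ := hne
    have := hV.2 0 v hv
    rwa [zero_smul] at this
  have hinf : ∀ (a : ℂ) (c : Fin N → ℂ), Metric.infDist (a • c) V = ‖a‖ * Metric.infDist c V := by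
    intro a c
    by_cases ha : a = 0
    · rw [ha, zero_smul, norm_zero, zero_mul]
      exact Metric.infDist_zero_of_mem h0
    · conv_lhs => rw [← smul_cone hV ha]
      exact infDist_smul₀ ha V c
  refine ⟨?_, fun a c => ?_, fun c hc => ?_⟩
  · exact ((hval_cont Φ).norm.add ((Metric.continuous_infDist_pt V).pow _)).rpow_const
      fun _ => Or.inr (by positivity)
  · unfold met
    have h0 : 0 ≤ ‖hval Φ c‖ + Metric.infDist c V ^ (d₁ + d₂) :=
      add_nonneg (norm_nonneg _) (pow_nonneg Metric.infDist_nonneg _)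
    rw [hval_smul h, hinf, mul_pow, ← mul_add, Real.mul_rpow (by positivity) h0,
      ← Real.rpow_natCast, ← Real.rpow_mul (norm_nonneg _), mul_one_div_cancel hd'.ne',
      Real.rpow_one]
  · unfold met
    apply Real.rpow_pos_of_pos
    by_cases hcV : c ∈ V
    · have := norm_pos_iff.2 (hani c hcV hc)
      exact add_pos_of_pos_of_nonneg this (pow_nonneg Metric.infDist_nonneg _)
    · have h1 : 0 < Metric.infDist c V := (hV.1.notMem_iff_infDist_pos hne).1 hcV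
      positivity

theorem met_of_mem {V : Set (Fin N → ℂ)} (Φ : MvPolynomial (Fin N ⊕ Fin N) ℤ) {d : ℕ}
    (hd : 0 < d) {c : Fin N → ℂ} (hc : c ∈ V) : met V Φ d c = ‖hval Φ c‖ ^ (1 / (d : ℝ)) := by
  unfold met
  rw [Metric.infDist_zero_of_mem hc, zero_pow hd.ne', add_zero]

theorem log_met {V : Set (Fin N → ℂ)} (Φ : MvPolynomial (Fin N ⊕ Fin N) ℤ) {d : ℕ} (hd : 0 < d)
    {c : Fin N → ℂ} (hc : c ∈ V) : (d : ℝ) * Real.log (met V Φ d c) = Real.log ‖hval Φ c‖ := by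
  have hd' : (0 : ℝ) < (d : ℝ) := by exact_mod_cast hd
  rw [met_of_mem Φ hd hc]
  by_cases h : hval Φ c = 0
  · rw [h, norm_zero, Real.zero_rpow (by positivity), Real.log_zero, mul_zero]
  · rw [Real.log_rpow (norm_pos_iff.2 h), ← mul_assoc, mul_one_div_cancel hd'.ne', one_mul]

/-- The form takes polynomial values up to a monomial. -/
theorem exists_poly {Φ : MvPolynomial (Fin N ⊕ Fin N) ℤ} {d₁ d₂ : ℕ} (h : Bihom Φ d₁ d₂) {k : ℕ}
    (P : Fin N → MvPolynomial (Fin k) ℤ) :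
    ∃ F : MvPolynomial (Fin k) ℤ, ∀ t, ‖tv F t‖ = ‖hval Φ fun i => tv (P i) t‖ := by
  set D : Fin k →₀ ℕ := ∑ i, J.dg (P i) with hD
  have hs : ∀ i, J.sle (P i) D := fun i => J.sle_iff.2
    (Finset.single_le_sum (f := fun i => J.dg (P i)) (fun _ _ => zero_le) (Finset.mem_univ i))
  refine ⟨MvPolynomial.eval₂ (Int.castRingHom _) (Sum.elim P fun i => J.rv D (P i)) Φ, fun t => ?_⟩
  set w : ℂ := ∏ i, J.zz t i ^ (D i) with hw
  have hw1 : ‖w‖ = 1 := by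
    rw [hw, norm_prod]
    simp [J.norm_zz]
  have h1 := MvPolynomial.hom_eval₂ Φ (Int.castRingHom (MvPolynomial (Fin k) ℤ)) (J.tvh t)
    (Sum.elim P fun i => J.rv D (P i))
  have h2 : (J.tvh t).comp (Int.castRingHom (MvPolynomial (Fin k) ℤ)) = Int.castRingHom ℂ :=
    RingHom.ext_int _ _
  rw [h2] at h1
  rw [J.tv_eq, h1]
  have h3 : ((J.tvh t) ∘ (Sum.elim P fun i => J.rv D (P i))) =
      Sum.elim (fun i => 1 * tv (P i) t) fun i => w * (starRingEnd ℂ) (tv (P i) t) := by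
    funext i
    cases i with
    | inl i => simp [J.tv_eq]
    | inr i =>
      simp only [Function.comp_apply, Sum.elim_inr]
      rw [← J.tv_eq, J.tv_rv (hs i)]
  have h4 : (fun i => (J.tvh t) ((Sum.elim P fun i => J.rv D (P i)) i)) =
      Sum.elim (fun i => 1 * tv (P i) t) fun i => w * (starRingEnd ℂ) (tv (P i) t) := h3
  first
    | rw [h3]
    | rw [h4]
  rw [eval_bihom h, norm_mul, one_pow, one_mul, norm_pow, hw1, one_pow, one_mul]
  rfl

theorem exists_tv_ne {k : ℕ} {F : MvPolynomial (Fin k) ℤ} (hF : F ≠ 0) : ∃ t, tv F t ≠ 0 := by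
  by_contra hcon
  push Not at hcon
  apply hF
  apply J.eq_of_tv_eq
  intro t
  rw [hcon t]
  simp [tv]

theorem form_ne_zero {V : Set (Fin N → ℂ)} {Φ : MvPolynomial (Fin N ⊕ Fin N) ℤ}
    (hani : ∀ c ∈ V, c ≠ 0 → hval Φ c ≠ 0)
    {k : ℕ} {P : Fin N → MvPolynomial (Fin k) ℤ} (hP : Prim P) (hPV : Ink V P)
    {F : MvPolynomial (Fin k) ℤ}
    (hF : ∀ t, ‖tv F t‖ = ‖hval Φ fun i => tv (P i) t‖) : F ≠ 0 := by
  rintro rfl
  obtain ⟨i, hi⟩ := Prim.exists_ne hP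
  obtain ⟨t, ht⟩ := exists_tv_ne hi
  have h1 := hF t
  have h2 : ‖tv (0 : MvPolynomial (Fin k) ℤ) t‖ = 0 := by simp [tv]
  rw [h2] at h1
  exact hani _ (hPV t) (nonzero_of_ne (v := fun i => tv (P i) t) i ht) (norm_eq_zero.1 h1.symm)

theorem mM_form {V : Set (Fin N → ℂ)} {Φ : MvPolynomial (Fin N ⊕ Fin N) ℤ} {d : ℕ} (hd : 0 < d)
    {k : ℕ} {P : Fin N → MvPolynomial (Fin k) ℤ} (hPV : Ink V P) {F : MvPolynomial (Fin k) ℤ}
    (hF : ∀ t, ‖tv F t‖ = ‖hval Φ fun i => tv (P i) t‖) :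
    mM F = Real.exp (d * Hk (met V Φ d) P) := by
  unfold mM Hk
  rw [← integral_const_mul]
  congr 1
  refine integral_congr_ae (Eventually.of_forall fun t => ?_)
  simp only
  rw [log_met Φ hd (hPV t), hF t]

/-- the measures of the values of a form at the vectors with values in a cone -/
def FormSet (Φ : MvPolynomial (Fin N ⊕ Fin N) ℤ) (V : Set (Fin N → ℂ)) : Set ℝ :=
  {x | ∃ (k : ℕ) (P : Fin N → MvPolynomial (Fin k) ℤ) (F : MvPolynomial (Fin k) ℤ), Prim P ∧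
    Ink V P ∧ (∀ t, ‖tv F t‖ = ‖hval Φ fun i => tv (P i) t‖) ∧ x = mM F}

theorem one_le_FormSet {Φ : MvPolynomial (Fin N ⊕ Fin N) ℤ} {V : Set (Fin N → ℂ)}
    (hani : ∀ c ∈ V, c ≠ 0 → hval Φ c ≠ 0) {x : ℝ} (hx : x ∈ FormSet Φ V) : 1 ≤ x := by
  obtain ⟨k, P, F, hP, hPV, hF, rfl⟩ := hx
  exact one_le_mM F (form_ne_zero hani hP hPV hF)

theorem closed_FormSet {Φ : MvPolynomial (Fin N ⊕ Fin N) ℤ} {d₁ d₂ : ℕ}
    (h : Bihom Φ d₁ d₂) (hd : 0 < d₁ + d₂) (V : Set (Fin N → ℂ)) (hV : IsCone V)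
    (hani : ∀ c ∈ V, c ≠ 0 → hval Φ c ≠ 0) : IsClosed (FormSet Φ V) := by
  have hd' : (0 : ℝ) < ((d₁ + d₂ : ℕ) : ℝ) := by exact_mod_cast hd
  refine IsSeqClosed.isClosed ?_
  intro x μ hx hlim
  have hne : V.Nonempty := by
    obtain ⟨k, P, F, hP, hPV, hF, hxF⟩ := hx 0
    exact ⟨_, hPV 0⟩
  have hcl := closed_Spectrum V hV (ι := Unit) (fun _ => met V Φ (d₁ + d₂))
    (fun _ => met_isMetric hV hne h hd hani)
  have hx1 : ∀ n, 1 ≤ x n := fun n => one_le_FormSet hani (hx n)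
  have hμ : 1 ≤ μ := ge_of_tendsto' hlim hx1
  have h1 : Tendsto (fun n => (fun _ : Unit => Real.log (x n) / ((d₁ + d₂ : ℕ) : ℝ))) atTop
      (𝓝 (fun _ : Unit => Real.log μ / ((d₁ + d₂ : ℕ) : ℝ))) := by
    rw [tendsto_pi_nhds]
    intro _
    exact (hlim.log (by linarith)).div_const _
  have h2 := hcl.mem_of_tendsto h1 (Eventually.of_forall fun n => by
    obtain ⟨k, P, F, hP, hPV, hF, hxF⟩ := hx n
    refine ⟨k, P, hP, hPV, fun _ => ?_⟩
    rw [hxF, mM_form hd hPV hF, Real.log_exp, mul_div_cancel_left₀ _ hd'.ne'])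
  obtain ⟨k, P, hP, hPV, h3⟩ := h2
  obtain ⟨F, hF⟩ := exists_poly h P
  refine ⟨k, P, F, hP, hPV, hF, ?_⟩
  rw [mM_form hd hPV hF, ← h3 (), mul_div_cancel₀ _ hd'.ne', Real.exp_log (by linarith)]

end

end Pool.Agent.T9h56.SQ
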