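import Pool.Agent.T9h56.SQ.Final

/-!
# The sets consist of Mahler measures
-/

set_option autoImplicit false

namespace Pool.Agent.T9h56.SQ

open Filter MeasureTheory Topology Pool.Agent.H261R2.CM Pool.Agent.T9h56.MT
open scoped ComplexOrder

noncomputable section

/-- Boyd's set -/
def BB : Set ℝ := {x : ℝ | ∃ k : ℕ, 1 ≤ k ∧ ∃ F : MvPolynomial (Fin k) ℤ, F ≠ 0 ∧ x = mM F}

theorem mem_BB {k : ℕ} {F : MvPolynomial (Fin k) ℤ} (hF : F ≠ 0) : mM F ∈ BB :=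
  ⟨k + 1, by omega, MvPolynomial.rename Fin.succ F, J.rename_ne_zero hF, (J.mM_rename F).symm⟩

theorem FormSet_BB {N : ℕ} {Φ : MvPolynomial (Fin N ⊕ Fin N) ℤ} {V : Set (Fin N → ℂ)}
    (hani : ∀ c ∈ V, c ≠ 0 → hval Φ c ≠ 0) : FormSet Φ V ⊆ BB := by
  rintro x ⟨k, P, F, hP, hPV, hF, rfl⟩
  exact mem_BB (form_ne_zero hani hP hPV hF)

theorem TT_BB : TT ⊆ BB := by
  rintro x ⟨n, hx⟩
  rw [TN_eq, FormSet'_eq (trf_bihom n) (VP n) (VP_cone n) (trf_ani n)] at hx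
  exact FormSet_BB (trf_ani n) hx

theorem rank_FormSet {N : ℕ} {Φ : MvPolynomial (Fin N ⊕ Fin N) ℤ} {d₁ d₂ : ℕ}
    (h : Bihom Φ d₁ d₂) (hd : 0 < d₁ + d₂) (V : Set (Fin N → ℂ)) (hV : IsCone V)
    (hani : ∀ c ∈ V, c ≠ 0 → hval Φ c ≠ 0) (B : ℝ) :
    ∃ m : ℕ, ∀ x ∈ derivedSet^[m] (FormSet Φ V), B ≤ x :=
  rank_of_companion _ (fun B => bounded_companion h hd V hV hani B) B

end

end Pool.Agent.T9h56.SQ
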