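import Pool.Agent.T9h56.SQ.Psd

/-!
# Sums of Hermitian squares as traces; Gram determinants
-/

set_option autoImplicit false

namespace Pool.Agent.T9h56.SQ

open Filter MeasureTheory Topology Pool.Agent.H261R2.CM Pool.Agent.T9h56.MT
open scoped ComplexOrder

noncomputable section

/-- the measures of the sums of Hermitian squares of coprime polynomials -/
def QC : Set ℝ :=
  {x | ∃ (k N : ℕ) (P : Fin N → MvPolynomial (Fin k) ℤ) (F : MvPolynomial (Fin k) ℤ), Cop P ∧
    (∀ t, ‖tv F t‖ = ∑ i, ‖tv (P i) t‖ ^ 2) ∧ x = mM F}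

theorem QC_eq : QC = QQ := by
  ext x
  constructor
  · rintro ⟨k, N, P, F, hP, hF, hx⟩
    refine ⟨N, ?_⟩
    rw [QN_eq, ← FormSet'_eq (sqf_bihom N) Set.univ (cone_univ N) (sqf_ani N)]
    refine ⟨k, P, F, hP, fun t => Set.mem_univ _, fun t => ?_, hx⟩
    rw [norm_hval_sqf, hF t]
  · rintro ⟨N, k, P, F, hP, hF, hx⟩
    exact ⟨k, N, P, F, Prim.cop hP, hF, hx⟩

theorem recip_rv_dvd {k : ℕ} {P : MvPolynomial (Fin k) ℤ} {D : Fin k →₀ ℕ} (h : J.sle P D) :
    recip (J.rv D P) ∣ P := by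
  have h1 : J.dg (J.rv D P) ≤ D := J.sle_iff.1 (J.sle_rv D P)
  have h2 := J.rv_eq_of_le h1
  rw [J.rv_rv h] at h2
  exact ⟨_, by rw [mul_comm]; exact h2⟩

theorem QQ_subset_TT : QQ ⊆ TT := by
  rintro x ⟨N, k, P, F, hP, hF, rfl⟩
  set D : Fin k →₀ ℕ := ∑ i, J.dg (P i) with hD
  have hs : ∀ i, J.sle (P i) D := fun i => J.sle_iff.2
    (Finset.single_le_sum (f := fun i => J.dg (P i)) (fun _ _ => zero_le) (Finset.mem_univ i))
  have hentry : ∀ (t : Fin k → ℝ) (i j : Fin N), tv (P i * J.rv D (P j)) t =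
      (∏ i, J.zz t i ^ (D i)) * (tv (P i) t * (starRingEnd ℂ) (tv (P j) t)) := by
    intro t i j
    rw [J.tv_mul, J.tv_rv (hs j)]
    ring
  have hw1 : ∀ t : Fin k → ℝ, ‖∏ i, J.zz t i ^ (D i)‖ = 1 := by
    intro t
    rw [norm_prod]
    simp [J.norm_zz]
  refine ⟨N, k, Matrix.of fun i j => P i * J.rv D (P j), fun R hR => ?_, fun t => ?_, ?_⟩
  · have h1 : ∀ j, R ∣ J.rv D (P j) := by
      intro j
      apply hP.dvd_of_forall
      intro i
      have := hR (i, j)
      simp only [Matrix.of_apply] at this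
      rwa [mul_comm] at this
    have h2 : ∀ j, recip R ∣ P j := by
      intro j
      by_cases h0 : P j = 0
      · rw [h0]
        exact dvd_zero _
      · have h3 : J.rv D (P j) ≠ 0 := J.rv_ne_zero (hs j) h0
        exact (J.recip_dvd h3 (h1 j)).trans (recip_rv_dvd (hs j))
    rw [← J.mM_recip, mM_unit (hP _ h2)]
  · set w : ℂ := ∏ i, J.zz t i ^ (D i) with hw
    have hw0 : w ≠ 0 := by
      rw [← norm_pos_iff, hw1 t]
      exact one_pos
    refine ⟨w⁻¹, inv_ne_zero hw0, ?_⟩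
    have h1 : w⁻¹ • vm (Matrix.of fun i j => P i * J.rv D (P j)) t =
        Matrix.vecMulVec (fun i => tv (P i) t) (star fun i => tv (P i) t) := by
      ext i j
      rw [Matrix.smul_apply, smul_eq_mul, Matrix.vecMulVec_apply]
      have h2 : vm (Matrix.of fun i j => P i * J.rv D (P j)) t i j = tv (P i * J.rv D (P j)) t := rfl
      rw [h2, hentry t i j, ← hw, ← mul_assoc, inv_mul_cancel₀ hw0, one_mul]
      rfl
    rw [h1]
    exact Matrix.posSemidef_vecMulVec_self_star _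
  · apply J.mM_congr
    intro t
    rw [hF t, tv_trace]
    unfold Matrix.trace
    have h1 : ∀ i : Fin N, (vm (Matrix.of fun i j => P i * J.rv D (P j)) t).diag i =
        (∏ i, J.zz t i ^ (D i)) * ((‖tv (P i) t‖ ^ 2 : ℝ) : ℂ) := by
      intro i
      have h2 : (vm (Matrix.of fun i j => P i * J.rv D (P j)) t).diag i =
          tv (P i * J.rv D (P i)) t := rfl
      rw [h2, hentry t i i, Complex.mul_conj, Complex.normSq_eq_norm_sq]
    rw [Finset.sum_congr rfl fun i _ => h1 i, ← Finset.mul_sum, norm_mul, hw1 t, one_mul,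
      ← Complex.ofReal_sum, Complex.norm_real, Real.norm_eq_abs,
      abs_of_nonneg (Finset.sum_nonneg fun i _ => sq_nonneg _)]

/-- the Gram determinants of matrices with coprime maximal minors -/
def GC : Set ℝ :=
  {x | ∃ (k r s : ℕ) (A : Matrix (Fin r) (Fin s) (MvPolynomial (Fin k) ℤ)),
    Cop (fun f : Fin r ↪o Fin s => (A.submatrix id f).det) ∧ x = gm A}

theorem GC_eq : GC = QQ := by
  classical
  ext x
  constructor
  · rintro ⟨k, r, s, A, hA, rfl⟩
    obtain ⟨D, q, hq, hD, h1, h2, h3⟩ := gram_main A hA.exists_ne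
    have h4 : mM D = 1 := hA D h1
    rw [h3, h4, one_pow, one_mul]
    exact hq
  · intro hx
    rw [← GG_eq] at hx
    obtain ⟨k, r, s, A, hA, hx⟩ := hx
    exact ⟨k, r, s, A, Prim.cop (fun R hR => hA R hR), hx⟩

end

end Pool.Agent.T9h56.SQ
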