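import Pool.Agent.T9h56.SQ.Squares
import Pool.Agent.T9h56.SQ.CB

/-!
# Determinants of Gram matrices
-/

set_option autoImplicit false

namespace Pool.Agent.T9h56.SQ

open Filter MeasureTheory Topology Pool.Agent.H261R2.CM Pool.Agent.T9h56.MT

noncomputable section

theorem mem_QQ_of_prim {ι : Type*} [Fintype ι] {k : ℕ} (v : ι → MvPolynomial (Fin k) ℤ)
    (hv : Prim v) (F : MvPolynomial (Fin k) ℤ) (hF : ∀ t, ‖tv F t‖ = ∑ i, ‖tv (v i) t‖ ^ 2) :
    mM F ∈ QQ := by
  classical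
  set e := Fintype.equivFin ι with he
  refine ⟨Fintype.card ι, k, fun j => v (e.symm j), F, fun R hR => ?_, fun t => ?_, rfl⟩
  · apply hv
    intro i
    have := hR (e i)
    simp only [Equiv.symm_apply_apply] at this
    exact this
  · rw [hF t]
    exact (Equiv.sum_comp e.symm fun i => ‖tv (v i) t‖ ^ 2).symm

/-- the reduction to vectors without common divisor -/
theorem sum_sq {ι : Type*} [Fintype ι] {k : ℕ} (v : ι → MvPolynomial (Fin k) ℤ)
    (hv : ∃ i, v i ≠ 0) (G : (Fin k → ℝ) → ℝ) (hG : ∀ t, G t = ∑ i, ‖tv (v i) t‖ ^ 2) :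
    ∃ D : MvPolynomial (Fin k) ℤ, ∃ q ∈ QQ, D ≠ 0 ∧ (∀ i, D ∣ v i) ∧
      (∀ R, (∀ i, R ∣ v i) → R ∣ D) ∧
      Real.exp (∫ t in Set.Icc (0 : Fin k → ℝ) 1, Real.log (G t)) = mM D ^ 2 * q := by
  classical
  obtain ⟨D, hD, w, hw, hprim⟩ := exists_prim v hv
  set e := Fintype.equivFin ι with he
  obtain ⟨F, hF⟩ := exists_poly (sqf_bihom (Fintype.card ι)) (fun j => w (e.symm j))
  have hF' : ∀ t, ‖tv F t‖ = ∑ i, ‖tv (w i) t‖ ^ 2 := by
    intro t
    rw [hF t, norm_hval_sqf]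
    exact Equiv.sum_comp e.symm fun i => ‖tv (w i) t‖ ^ 2
  have hw0 : ∃ i, w i ≠ 0 := by
    obtain ⟨i, hi⟩ := hv
    refine ⟨i, fun h => hi ?_⟩
    rw [hw i, h, mul_zero]
  have hF0 : F ≠ 0 := by
    rintro rfl
    obtain ⟨i, hi⟩ := hw0
    obtain ⟨t, ht⟩ := exists_tv_ne hi
    have h1 := hF' t
    have h2 : ‖tv (0 : MvPolynomial (Fin k) ℤ) t‖ = 0 := by simp [tv]
    rw [h2] at h1
    have h3 : 0 < ‖tv (w i) t‖ ^ 2 := by
      have := norm_pos_iff.2 ht
      positivity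
    have h4 := Finset.single_le_sum (f := fun i => ‖tv (w i) t‖ ^ 2)
      (fun i _ => sq_nonneg _) (Finset.mem_univ i)
    linarith
  refine ⟨D, mM F, mem_QQ_of_prim w hprim F hF', hD, fun i => ⟨w i, hw i⟩, fun R hR => ?_, ?_⟩
  · apply hprim.dvd_of_forall
    intro i
    rw [← hw i]
    exact hR i
  · have h1 : (∫ t in Set.Icc (0 : Fin k → ℝ) 1, Real.log (G t)) =
        ∫ t in Set.Icc (0 : Fin k → ℝ) 1, (2 * Real.log ‖tv D t‖ + Real.log ‖tv F t‖) := by
      refine integral_congr_ae ?_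
      filter_upwards [F_zero_null hD, F_zero_null hF0] with t h2 h3
      have h4 : G t = ‖tv D t‖ ^ 2 * ‖tv F t‖ := by
        rw [hG t, hF' t, Finset.mul_sum]
        refine Finset.sum_congr rfl fun i _ => ?_
        rw [hw i, J.tv_mul, norm_mul, mul_pow]
      rw [h4, Real.log_mul (pow_ne_zero _ (norm_ne_zero_iff.2 h2)) (norm_ne_zero_iff.2 h3),
        Real.log_pow]
      push_cast
      ring
    rw [h1, integral_add ((F_integrable hD).const_mul 2) (F_integrable hF0), integral_const_mul,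
      Real.exp_add, ← log_mM, ← log_mM, Real.exp_log (show 0 < mM F from Real.exp_pos _)]
    congr 1
    have h5 : (2 : ℝ) * Real.log (mM D) = ((2 : ℕ) : ℝ) * Real.log (mM D) := by push_cast; rfl
    rw [h5, Real.exp_nat_mul, Real.exp_log (show 0 < mM D from Real.exp_pos _)]

/-- the value of a matrix at a point of the torus -/
def vm {k r s : ℕ} (A : Matrix (Fin r) (Fin s) (MvPolynomial (Fin k) ℤ)) (t : Fin k → ℝ) :
    Matrix (Fin r) (Fin s) ℂ := A.map fun p => tv p t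

/-- the measure of the determinant of the Gram matrix -/
def gm {k r s : ℕ} (A : Matrix (Fin r) (Fin s) (MvPolynomial (Fin k) ℤ)) : ℝ :=
  Real.exp (∫ t in Set.Icc (0 : Fin k → ℝ) 1, Real.log ‖(vm A t * (vm A t).conjTranspose).det‖)

theorem tv_det {k r : ℕ} (A : Matrix (Fin r) (Fin r) (MvPolynomial (Fin k) ℤ)) (t : Fin k → ℝ) :
    tv A.det t = (A.map fun p => tv p t).det := by
  rw [J.tv_eq, RingHom.map_det]
  rfl

theorem norm_gram {k r s : ℕ} (A : Matrix (Fin r) (Fin s) (MvPolynomial (Fin k) ℤ))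
    (t : Fin k → ℝ) : ‖(vm A t * (vm A t).conjTranspose).det‖ =
      ∑ Q : {Q : Finset (Fin s) // Q.card = r},
        ‖tv (A.submatrix id (Q.1.orderEmbOfFin Q.2)).det t‖ ^ 2 := by
  rw [CB.cb]
  have h1 : ∀ Q : {Q : Finset (Fin s) // Q.card = r},
      ((vm A t).submatrix id (Q.1.orderEmbOfFin Q.2)).det *
        ((vm A t).conjTranspose.submatrix (Q.1.orderEmbOfFin Q.2) id).det =
      ((‖tv (A.submatrix id (Q.1.orderEmbOfFin Q.2)).det t‖ ^ 2 : ℝ) : ℂ) := by
    intro Q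
    have h2 : (vm A t).conjTranspose.submatrix (Q.1.orderEmbOfFin Q.2) id =
        ((vm A t).submatrix id (Q.1.orderEmbOfFin Q.2)).conjTranspose := rfl
    have h3 : (vm A t).submatrix id (Q.1.orderEmbOfFin Q.2) =
        (A.submatrix id (Q.1.orderEmbOfFin Q.2)).map fun p => tv p t := rfl
    rw [h2, Matrix.det_conjTranspose, h3, ← tv_det]
    rw [Complex.star_def, Complex.mul_conj, Complex.normSq_eq_norm_sq]
  rw [Finset.sum_congr rfl fun Q _ => h1 Q, ← Complex.ofReal_sum, Complex.norm_real,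
    Real.norm_eq_abs, abs_of_nonneg (Finset.sum_nonneg fun i _ => sq_nonneg _)]

theorem emb_eq {r s : ℕ} (f : Fin r ↪o Fin s) :
    ∃ Q : {Q : Finset (Fin s) // Q.card = r}, (f : Fin r → Fin s) = Q.1.orderEmbOfFin Q.2 := by
  refine ⟨⟨Finset.univ.map f.toEmbedding, by simp⟩, ?_⟩
  exact Finset.orderEmbOfFin_unique _ (fun x => by simp) f.strictMono

/-- Gram determinants of matrices. -/
theorem gram_main {k r s : ℕ} (A : Matrix (Fin r) (Fin s) (MvPolynomial (Fin k) ℤ))
    (hA : ∃ f : Fin r ↪o Fin s, (A.submatrix id f).det ≠ 0) :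
    ∃ D : MvPolynomial (Fin k) ℤ, ∃ q ∈ QQ, D ≠ 0 ∧
      (∀ f : Fin r ↪o Fin s, D ∣ (A.submatrix id f).det) ∧
      (∀ R, (∀ f : Fin r ↪o Fin s, R ∣ (A.submatrix id f).det) → R ∣ D) ∧
      gm A = mM D ^ 2 * q := by
  classical
  obtain ⟨D, q, hq, hD, h1, h2, h3⟩ := sum_sq
    (fun Q : {Q : Finset (Fin s) // Q.card = r} => (A.submatrix id (Q.1.orderEmbOfFin Q.2)).det)
    (by
      obtain ⟨f, hf⟩ := hA
      obtain ⟨Q, hQ⟩ := emb_eq f
      refine ⟨Q, ?_⟩
      rwa [← hQ])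
    (fun t => ‖(vm A t * (vm A t).conjTranspose).det‖) (norm_gram A)
  refine ⟨D, q, hq, hD, fun f => ?_, fun R hR => ?_, h3⟩
  · obtain ⟨Q, hQ⟩ := emb_eq f
    rw [hQ]
    exact h1 Q
  · exact h2 R fun Q => hR (Q.1.orderEmbOfFin Q.2)

/-- the Gram determinants of matrices with coprime maximal minors -/
def GG : Set ℝ :=
  {x | ∃ (k r s : ℕ) (A : Matrix (Fin r) (Fin s) (MvPolynomial (Fin k) ℤ)),
    (∀ R, (∀ f : Fin r ↪o Fin s, R ∣ (A.submatrix id f).det) → IsUnit R) ∧ x = gm A}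

theorem GG_eq : GG = QQ := by
  classical
  ext x
  constructor
  · rintro ⟨k, r, s, A, hA, rfl⟩
    have hne : ∃ f : Fin r ↪o Fin s, (A.submatrix id f).det ≠ 0 := by
      by_contra hcon
      push Not at hcon
      exact not_isUnit_zero (hA 0 fun f => by rw [hcon f])
    obtain ⟨D, q, hq, hD, h1, h2, h3⟩ := gram_main A hne
    have hu := hA D h1
    have h4 : mM D = 1 := by
      unfold mM
      simp [J.norm_tv_isUnit hu]
    rw [h3, h4, one_pow, one_mul]
    exact hq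
  · rintro ⟨N, k, P, F, hP, hF, rfl⟩
    refine ⟨k, 1, N, Matrix.of fun _ j => P j, fun R hR => ?_, ?_⟩
    · apply hP
      intro i
      have h1 := hR (OrderEmbedding.ofStrictMono (fun _ : Fin 1 => i) (Subsingleton.strictMono _))
      rw [Matrix.det_unique] at h1
      simpa using h1
    · unfold mM gm
      congr 1
      refine integral_congr_ae (Eventually.of_forall fun t => ?_)
      simp only
      rw [Matrix.det_unique, hF t, Matrix.mul_apply]
      have h2 : ∀ j : Fin N, vm (Matrix.of fun (_ : Fin 1) j => P j) t default j *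
          (vm (Matrix.of fun (_ : Fin 1) j => P j) t).conjTranspose j default =
          ((‖tv (P j) t‖ ^ 2 : ℝ) : ℂ) := by
        intro j
        rw [Matrix.conjTranspose_apply]
        unfold vm
        rw [Matrix.map_apply, Matrix.of_apply, Complex.star_def, Complex.mul_conj,
          Complex.normSq_eq_norm_sq]
      rw [Finset.sum_congr rfl fun j _ => h2 j, ← Complex.ofReal_sum, Complex.norm_real,
        Real.norm_eq_abs, abs_of_nonneg (Finset.sum_nonneg fun i _ => sq_nonneg _)]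

end

end Pool.Agent.T9h56.SQ
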