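import Pool.Agent.T9h56.SQ.Mat
import Pool.Agent.T9h56.SQ.Cop

/-!
# Traces of positive semidefinite matrices
-/

set_option autoImplicit false

namespace Pool.Agent.T9h56.SQ

open Filter MeasureTheory Topology Pool.Agent.H261R2.CM Pool.Agent.T9h56.MT
open scoped ComplexOrder

noncomputable section

/-! ### positive semidefinite matrices -/

variable {n : ℕ}

theorem psd_diag {M : Matrix (Fin n) (Fin n) ℂ} (hM : M.PosSemidef) (i : Fin n) :
    0 ≤ (M i i).re ∧ M i i = ((M i i).re : ℂ) := by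
  have h := hM.diag_nonneg (i := i)
  rw [Complex.nonneg_iff] at h
  refine ⟨h.1, ?_⟩
  apply Complex.ext
  · simp
  · simp [← h.2]

theorem psd_sq {M : Matrix (Fin n) (Fin n) ℂ} (hM : M.PosSemidef) (i j : Fin n) :
    ‖M i j‖ ^ 2 ≤ (M i i).re * (M j j).re := by
  have h := (hM.submatrix ![i, j]).det_nonneg
  rw [Matrix.det_fin_two] at h
  simp only [Matrix.submatrix_apply, Matrix.cons_val_zero, Matrix.cons_val_one] at h
  have h1 : M j i = (starRingEnd ℂ) (M i j) := (hM.isHermitian.apply j i).symm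
  have h2 : M i j * M j i = ((‖M i j‖ ^ 2 : ℝ) : ℂ) := by
    rw [h1, Complex.mul_conj, Complex.normSq_eq_norm_sq]
  rw [h2, (psd_diag hM i).2, (psd_diag hM j).2, ← Complex.ofReal_mul, ← Complex.ofReal_sub] at h
  have h3 := Complex.zero_le_real.1 h
  linarith

theorem psd_trace {M : Matrix (Fin n) (Fin n) ℂ} (hM : M.PosSemidef) :
    M.trace = ((∑ i, (M i i).re : ℝ) : ℂ) := by
  rw [Complex.ofReal_sum]
  exact Finset.sum_congr rfl fun i _ => (psd_diag hM i).2

theorem psd_le_trace {M : Matrix (Fin n) (Fin n) ℂ} (hM : M.PosSemidef) (i j : Fin n) :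
    ‖M i j‖ ≤ ∑ i, (M i i).re := by
  have h1 := psd_sq hM i j
  have h2 : ∀ i, (M i i).re ≤ ∑ i, (M i i).re := fun i =>
    Finset.single_le_sum (f := fun i => (M i i).re) (fun i _ => (psd_diag hM i).1)
      (Finset.mem_univ i)
  have h3 : 0 ≤ ∑ i, (M i i).re := Finset.sum_nonneg fun i _ => (psd_diag hM i).1
  apply (pow_le_pow_iff_left₀ (norm_nonneg _) h3 two_ne_zero).1
  rw [sq (∑ i, (M i i).re)]
  exact h1.trans (mul_le_mul (h2 i) (h2 j) (psd_diag hM j).1 h3)

theorem psd_closed : IsClosed {M : Matrix (Fin n) (Fin n) ℂ | M.PosSemidef} := by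
  have h : {M : Matrix (Fin n) (Fin n) ℂ | M.PosSemidef} =
      {M | M.conjTranspose = M} ∩ ⋂ x : Fin n → ℂ, {M | 0 ≤ (star x ⬝ᵥ (M.mulVec x)).re ∧
        0 = (star x ⬝ᵥ (M.mulVec x)).im} := by
    ext M
    simp only [Set.mem_ofPred_eq, Set.mem_inter_iff, Set.mem_iInter]
    rw [Matrix.posSemidef_iff_dotProduct_mulVec]
    constructor
    · rintro ⟨h1, h2⟩
      exact ⟨h1, fun x => Complex.nonneg_iff.1 (h2 x)⟩
    · rintro ⟨h1, h2⟩
      exact ⟨h1, fun x => Complex.nonneg_iff.2 (h2 x)⟩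
  rw [h]
  refine IsClosed.inter ?_ (isClosed_iInter fun x => ?_)
  · exact isClosed_eq (by fun_prop) continuous_id
  · have hc : Continuous fun M : Matrix (Fin n) (Fin n) ℂ => star x ⬝ᵥ (M.mulVec x) := by
      fun_prop
    exact (isClosed_le continuous_const (Complex.continuous_re.comp hc)).inter
      (isClosed_eq continuous_const (Complex.continuous_im.comp hc))

theorem psd_real_smul {M : Matrix (Fin n) (Fin n) ℂ} (hM : M.PosSemidef) {r : ℝ} (hr : 0 ≤ r) :
    ((r : ℂ) • M).PosSemidef := by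
  rw [Matrix.posSemidef_iff_dotProduct_mulVec] at hM ⊢
  refine ⟨?_, fun x => ?_⟩
  · rw [Matrix.IsHermitian, Matrix.conjTranspose_smul, hM.1]
    simp
  · rw [Matrix.smul_mulVec, dotProduct_smul, smul_eq_mul]
    exact mul_nonneg (Complex.zero_le_real.2 hr) (hM.2 x)

/-! ### the cone -/

/-- a vector as a square matrix -/
def toM (c : Fin (n * n) → ℂ) : Matrix (Fin n) (Fin n) ℂ :=
  Matrix.of fun i j => c (finProdFinEquiv (i, j))

/-- the complex multiples of the positive semidefinite matrices -/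
def VP (n : ℕ) : Set (Fin (n * n) → ℂ) := {c | ∃ z : ℂ, z ≠ 0 ∧ (z • toM c).PosSemidef}

theorem toM_smul (z : ℂ) (c : Fin (n * n) → ℂ) : toM (z • c) = z • toM c := rfl

theorem toM_cont : Continuous (toM : (Fin (n * n) → ℂ) → Matrix (Fin n) (Fin n) ℂ) :=
  continuous_matrix fun i j => continuous_apply _

theorem norm_trace_of {c : Fin (n * n) → ℂ} {z : ℂ} (h : (z • toM c).PosSemidef) :
    ‖z‖ * ‖(toM c).trace‖ = ∑ i, ((z • toM c) i i).re := by
  have h1 := psd_trace h
  rw [Matrix.trace_smul, smul_eq_mul] at h1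
  rw [← norm_mul, h1, Complex.norm_real, Real.norm_eq_abs, abs_of_nonneg]
  exact Finset.sum_nonneg fun i _ => (psd_diag h i).1

theorem VP_eq : VP n = {c | ((starRingEnd ℂ) (toM c).trace • toM c).PosSemidef ∧
    ∀ l, ‖c l‖ ≤ ‖(toM c).trace‖} := by
  ext c
  constructor
  · rintro ⟨z, hz, hM⟩
    have hz' : 0 < ‖z‖ := norm_pos_iff.2 hz
    constructor
    · have h1 := psd_trace hM
      rw [Matrix.trace_smul, smul_eq_mul] at h1
      set T : ℝ := ∑ i, ((z • toM c) i i).re with hT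
      have hT0 : 0 ≤ T := Finset.sum_nonneg fun i _ => (psd_diag hM i).1
      have h2 : (starRingEnd ℂ) (toM c).trace = ((T / ‖z‖ ^ 2 : ℝ) : ℂ) * z := by
        have h3 : (toM c).trace = (T : ℂ) / z := by
          rw [← h1, mul_div_cancel_left₀ _ hz]
        rw [h3, map_div₀, Complex.conj_ofReal]
        have h4 : (starRingEnd ℂ) z ≠ 0 := by
          intro h
          exact hz ((map_eq_zero _).1 h)
        have h5 : ((‖z‖ ^ 2 : ℝ) : ℂ) = z * (starRingEnd ℂ) z := by
          rw [Complex.mul_conj, Complex.normSq_eq_norm_sq]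
        rw [Complex.ofReal_div, h5]
        field_simp
      rw [h2, mul_smul]
      exact psd_real_smul hM (by positivity)
    · intro l
      obtain ⟨⟨i, j⟩, rfl⟩ := finProdFinEquiv.surjective l
      have h1 := psd_le_trace hM i j
      rw [← norm_trace_of hM] at h1
      have h2 : (z • toM c) i j = z * c (finProdFinEquiv (i, j)) := rfl
      rw [h2, norm_mul] at h1
      exact le_of_mul_le_mul_left h1 hz'
  · rintro ⟨hM, hl⟩
    by_cases h0 : (toM c).trace = 0
    · refine ⟨1, one_ne_zero, ?_⟩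
      have hc : c = 0 := by
        funext l
        have := hl l
        rw [h0, norm_zero] at this
        exact norm_le_zero_iff.1 this
      rw [hc]
      have : (1 : ℂ) • toM (0 : Fin (n * n) → ℂ) = 0 := by
        rw [one_smul]
        rfl
      rw [this]
      exact Matrix.PosSemidef.zero
    · exact ⟨_, fun h => h0 ((map_eq_zero _).1 h), hM⟩

theorem VP_cone (n : ℕ) : IsCone (VP n) := by
  constructor
  · rw [VP_eq]
    have htr : Continuous fun c : Fin (n * n) → ℂ => (toM c).trace := toM_cont.matrix_trace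
    have h1 : {c : Fin (n * n) → ℂ | ((starRingEnd ℂ) (toM c).trace • toM c).PosSemidef ∧
        ∀ l, ‖c l‖ ≤ ‖(toM c).trace‖} =
        {c | ((starRingEnd ℂ) (toM c).trace • toM c).PosSemidef} ∩
          ⋂ l, {c | ‖c l‖ ≤ ‖(toM c).trace‖} := by
      ext c
      simp only [Set.mem_ofPred_eq, Set.mem_inter_iff, Set.mem_iInter]
    rw [h1]
    refine IsClosed.inter ?_ (isClosed_iInter fun l => ?_)
    · exact psd_closed.preimage ((Complex.continuous_conj.comp htr).smul toM_cont)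
    · exact isClosed_le (continuous_apply l).norm htr.norm
  · rintro w c ⟨z, hz, hM⟩
    by_cases hw : w = 0
    · refine ⟨1, one_ne_zero, ?_⟩
      have : (1 : ℂ) • toM (w • c) = 0 := by
        rw [hw, zero_smul, one_smul]
        rfl
      rw [this]
      exact Matrix.PosSemidef.zero
    · refine ⟨z / w, div_ne_zero hz hw, ?_⟩
      rw [toM_smul, smul_smul, div_mul_cancel₀ _ hw]
      exact hM

/-- the trace as a form -/
def trf (n : ℕ) : MvPolynomial (Fin (n * n) ⊕ Fin (n * n)) ℤ :=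
  ∑ i : Fin n, MvPolynomial.X (Sum.inl (finProdFinEquiv (i, i)))

theorem trf_bihom (n : ℕ) : Bihom (trf n) 1 0 := by
  classical
  intro s hs
  unfold trf at hs
  have h1 := MvPolynomial.support_sum hs
  rw [Finset.mem_biUnion] at h1
  obtain ⟨i, _, hi⟩ := h1
  have h3 := MvPolynomial.support_monomial_subset hi
  rw [Finset.mem_singleton] at h3
  rw [h3]
  constructor
  · simp [Finsupp.single_apply]
  · simp [Finsupp.single_apply]

theorem hval_trf (c : Fin (n * n) → ℂ) : hval (trf n) c = (toM c).trace := by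
  unfold hval trf
  rw [MvPolynomial.eval₂_sum]
  refine Finset.sum_congr rfl fun i _ => ?_
  rw [MvPolynomial.eval₂_X]
  rfl

theorem trf_ani (n : ℕ) : ∀ c ∈ VP n, c ≠ 0 → hval (trf n) c ≠ 0 := by
  intro c hc hne h0
  rw [VP_eq] at hc
  rw [hval_trf] at h0
  apply hne
  funext l
  have := hc.2 l
  rw [h0, norm_zero] at this
  exact norm_le_zero_iff.1 this

/-- the measures of the traces of positive semidefinite matrices of size `n` -/
def TN (n : ℕ) : Set ℝ :=
  {x | ∃ (k : ℕ) (A : Matrix (Fin n) (Fin n) (MvPolynomial (Fin k) ℤ)),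
    Cop (fun p : Fin n × Fin n => A p.1 p.2) ∧
    (∀ t, ∃ z : ℂ, z ≠ 0 ∧ (z • vm A t).PosSemidef) ∧ x = mM A.trace}

theorem tv_trace {k : ℕ} (A : Matrix (Fin n) (Fin n) (MvPolynomial (Fin k) ℤ)) (t : Fin k → ℝ) :
    tv A.trace t = (vm A t).trace := by
  unfold Matrix.trace
  rw [J.tv_eq, map_sum]
  rfl

theorem TN_eq (n : ℕ) : TN n = FormSet' (trf n) (VP n) := by
  ext x
  constructor
  · rintro ⟨k, A, hA, hpsd, hx⟩
    refine ⟨k, fun l => A (finProdFinEquiv.symm l).1 (finProdFinEquiv.symm l).2, A.trace,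
      fun R hR => hA R fun p => ?_, fun t => ?_, fun t => ?_, hx⟩
    · have := hR (finProdFinEquiv p)
      simp only [Equiv.symm_apply_apply] at this
      exact this
    · obtain ⟨z, hz, h⟩ := hpsd t
      refine ⟨z, hz, ?_⟩
      have h1 : toM (fun l => tv (A (finProdFinEquiv.symm l).1 (finProdFinEquiv.symm l).2) t) =
          vm A t := by
        ext i j
        unfold toM vm
        simp only [Matrix.of_apply, Equiv.symm_apply_apply, Matrix.map_apply]
      rw [h1]
      exact h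
    · rw [hval_trf, tv_trace]
      congr 2
      ext i j
      unfold toM vm
      simp only [Matrix.of_apply, Equiv.symm_apply_apply, Matrix.map_apply]
  · rintro ⟨k, P, F, hP, hPV, hF, rfl⟩
    refine ⟨k, Matrix.of fun i j => P (finProdFinEquiv (i, j)), fun R hR => hP R fun l => ?_,
      fun t => ?_, ?_⟩
    · obtain ⟨p, rfl⟩ := finProdFinEquiv.surjective l
      exact hR p
    · exact hPV t
    · apply J.mM_congr
      intro t
      rw [hF t, hval_trf, tv_trace]
      rfl

theorem closed_TN (n : ℕ) : IsClosed (TN n) := by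
  rw [TN_eq, FormSet'_eq (trf_bihom n) (VP n) (VP_cone n) (trf_ani n)]
  exact closed_FormSet (trf_bihom n) (by norm_num) (VP n) (VP_cone n) (trf_ani n)

/-- the same for all sizes -/
def TT : Set ℝ := {x | ∃ n, x ∈ TN n}

/-- deletion of the zero rows and columns -/
theorem TN_reduce {k : ℕ} {A : Matrix (Fin n) (Fin n) (MvPolynomial (Fin k) ℤ)}
    (hA : Cop (fun p : Fin n × Fin n => A p.1 p.2))
    (hpsd : ∀ t, ∃ z : ℂ, z ≠ 0 ∧ (z • vm A t).PosSemidef) :
    ∃ (m : ℕ) (A' : Matrix (Fin m) (Fin m) (MvPolynomial (Fin k) ℤ)), 0 < m ∧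
      Cop (fun p : Fin m × Fin m => A' p.1 p.2) ∧
      (∀ t, ∃ z : ℂ, z ≠ 0 ∧ (z • vm A' t).PosSemidef) ∧ A'.trace = A.trace ∧
      (m : ℝ) ≤ mM A.trace := by
  classical
  -- the nonzero diagonal entries
  set s : Finset (Fin n) := Finset.univ.filter fun i => A i i ≠ 0 with hs
  have hsq : ∀ t i j, ‖tv (A i j) t‖ ^ 2 ≤ ‖tv (A i i) t‖ * ‖tv (A j j) t‖ := by
    intro t i j
    obtain ⟨z, hz, h⟩ := hpsd t
    have h1 := psd_sq h i j
    have h2 : ∀ i j, (z • vm A t) i j = z * tv (A i j) t := fun i j => rfl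
    have h3 : ∀ i, ((z • vm A t) i i).re = ‖z‖ * ‖tv (A i i) t‖ := by
      intro i
      have h4 := (psd_diag h i).2
      have h5 := (psd_diag h i).1
      rw [← norm_mul, ← h2 i i]
      conv_rhs => rw [h4]
      rw [Complex.norm_real, Real.norm_eq_abs, abs_of_nonneg h5]
    rw [h3 i, h3 j, h2 i j, norm_mul] at h1
    have hz' : 0 < ‖z‖ ^ 2 := by
      have := norm_pos_iff.2 hz
      positivity
    have h4 : ‖z‖ ^ 2 * ‖tv (A i j) t‖ ^ 2 ≤ ‖z‖ ^ 2 * (‖tv (A i i) t‖ * ‖tv (A j j) t‖) := by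
      nlinarith [h1]
    exact le_of_mul_le_mul_left h4 hz'
  have hzero : ∀ i, i ∉ s → ∀ j, A i j = 0 ∧ A j i = 0 := by
    intro i hi j
    have h1 : A i i = 0 := by simpa [hs] using hi
    have h0 : ∀ t, tv (0 : MvPolynomial (Fin k) ℤ) t = 0 := fun t => by simp [tv]
    constructor
    · apply J.eq_of_tv_eq
      intro t
      have h2 := hsq t i j
      rw [h1, h0 t, norm_zero, zero_mul] at h2
      rw [h0 t]
      exact norm_eq_zero.1 (pow_eq_zero_iff (two_ne_zero)|>.1 (le_antisymm h2 (sq_nonneg _)))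
    · apply J.eq_of_tv_eq
      intro t
      have h2 := hsq t j i
      rw [h1, h0 t, norm_zero, mul_zero] at h2
      rw [h0 t]
      exact norm_eq_zero.1 (pow_eq_zero_iff (two_ne_zero)|>.1 (le_antisymm h2 (sq_nonneg _)))
  have hsne : s.Nonempty := by
    by_contra hcon
    rw [Finset.not_nonempty_iff_eq_empty] at hcon
    obtain ⟨p, hp⟩ := hA.exists_ne
    apply hp
    exact (hzero p.1 (by rw [hcon]; exact Finset.notMem_empty _) p.2).1
  set e : Fin s.card ≃ s := s.equivFin.symm with he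
  set f : Fin s.card → Fin n := fun l => (e l : Fin n) with hf
  have hfs : ∀ i ∈ s, ∃ l, f l = i := by
    intro i hi
    refine ⟨e.symm ⟨i, hi⟩, ?_⟩
    simp [hf]
  have htr : A.trace = ∑ i ∈ s, A i i := by
    unfold Matrix.trace
    symm
    apply Finset.sum_subset (Finset.subset_univ s)
    intro i _ hi
    exact (hzero i hi i).1
  have htr' : (A.submatrix f f).trace = A.trace := by
    rw [htr]
    unfold Matrix.trace
    rw [← Finset.sum_coe_sort s, ← e.sum_comp]
    rfl
  have htr0 : A.trace ≠ 0 := by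
    intro h0
    obtain ⟨p, hp⟩ := hA.exists_ne
    apply hp
    apply J.eq_of_tv_eq
    intro t
    obtain ⟨z, hz, h⟩ := hpsd t
    have h1 := psd_le_trace h p.1 p.2
    have h2 := psd_trace h
    rw [Matrix.trace_smul, ← tv_trace, h0] at h2
    have h3 : tv (0 : MvPolynomial (Fin k) ℤ) t = 0 := by simp [tv]
    rw [h3, smul_zero] at h2
    have h4 : (∑ i, ((z • vm A t) i i).re : ℝ) = 0 := by exact_mod_cast h2.symm
    rw [h4] at h1
    have h5 : z * tv (A p.1 p.2) t = 0 := norm_le_zero_iff.1 h1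
    rw [h3]
    exact (mul_eq_zero.1 h5).resolve_left hz
  refine ⟨s.card, A.submatrix f f, Finset.card_pos.2 hsne, fun R hR => hA R fun p => ?_,
    fun t => ?_, htr', ?_⟩
  · change R ∣ A p.1 p.2
    by_cases h1 : p.1 ∈ s
    · by_cases h2 : p.2 ∈ s
      · obtain ⟨l1, hl1⟩ := hfs _ h1
        obtain ⟨l2, hl2⟩ := hfs _ h2
        have := hR (l1, l2)
        simp only [Matrix.submatrix_apply] at this
        rwa [hl1, hl2] at this
      · rw [(hzero p.2 h2 p.1).2]
        exact dvd_zero _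
    · rw [(hzero p.1 h1 p.2).1]
      exact dvd_zero _
  · obtain ⟨z, hz, h⟩ := hpsd t
    exact ⟨z, hz, h.submatrix f⟩
  · refine card_le_gen (fun i => A i i) A.trace htr0 s hsne (fun i hi => by simpa [hs] using hi) 1
      fun t => ?_
    simp only [pow_one]
    obtain ⟨z, hz, h⟩ := hpsd t
    have hz' : 0 < ‖z‖ := norm_pos_iff.2 hz
    have h1 : ‖z‖ * ‖tv A.trace t‖ = ∑ i, ((z • vm A t) i i).re := by
      have h2 := psd_trace h
      rw [Matrix.trace_smul, smul_eq_mul, ← tv_trace] at h2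
      rw [← norm_mul, h2, Complex.norm_real, Real.norm_eq_abs, abs_of_nonneg]
      exact Finset.sum_nonneg fun i _ => (psd_diag h i).1
    have h3 : ∀ i, ((z • vm A t) i i).re = ‖z‖ * ‖tv (A i i) t‖ := by
      intro i
      have h4 := (psd_diag h i).2
      have h5 := (psd_diag h i).1
      have h2 : (z • vm A t) i i = z * tv (A i i) t := rfl
      rw [← norm_mul, ← h2]
      conv_rhs => rw [h4]
      rw [Complex.norm_real, Real.norm_eq_abs, abs_of_nonneg h5]
    rw [Finset.sum_congr rfl fun i _ => h3 i, ← Finset.mul_sum] at h1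
    have h4 := mul_left_cancel₀ hz'.ne' h1
    rw [h4]
    exact Finset.sum_le_sum_of_subset_of_nonneg (Finset.subset_univ s) fun i _ _ => norm_nonneg _

theorem TT_small {x B : ℝ} (hx : x ∈ TT) (hB : x ≤ B) :
    x ∈ ⋃ m ∈ Finset.range (⌊B⌋₊ + 1), TN m := by
  obtain ⟨n, k, A, hA, hpsd, rfl⟩ := hx
  obtain ⟨m, A', hm, hA', hpsd', htr, hle⟩ := TN_reduce hA hpsd
  rw [Set.mem_iUnion₂]
  refine ⟨m, ?_, k, A', hA', hpsd', by rw [htr]⟩
  rw [Finset.mem_range, Nat.lt_succ_iff]
  exact Nat.le_floor (hle.trans hB)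

theorem closed_TT : IsClosed TT := by
  refine IsSeqClosed.isClosed ?_
  intro x μ hx hlim
  obtain ⟨B, hB⟩ := hlim.bddAbove_range
  have hcl : IsClosed (⋃ m ∈ Finset.range (⌊B⌋₊ + 1), TN m) :=
    (Finset.range (⌊B⌋₊ + 1)).finite_toSet.isClosed_biUnion fun m _ => closed_TN m
  have h1 := hcl.mem_of_tendsto hlim
    (Eventually.of_forall fun n => TT_small (hx n) (hB ⟨n, rfl⟩))
  rw [Set.mem_iUnion₂] at h1
  obtain ⟨m, _, hm⟩ := h1
  exact ⟨m, hm⟩

theorem gap_TT {x : ℝ} (hx : x ∈ TT) : x = 1 ∨ 2 ≤ x := by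
  obtain ⟨n, k, A, hA, hpsd, rfl⟩ := hx
  obtain ⟨m, A', hm, hA', hpsd', htr, hle⟩ := TN_reduce hA hpsd
  by_cases h2 : 2 ≤ m
  · right
    exact le_trans (by exact_mod_cast h2) hle
  · left
    have h1 : m = 1 := by omega
    subst h1
    rw [← htr]
    apply hA'
    intro p
    change A'.trace ∣ A' p.1 p.2
    rw [Matrix.trace_fin_one, Subsingleton.elim p.1 0, Subsingleton.elim p.2 0]

theorem rank_TT (B : ℝ) : ∃ m : ℕ, ∀ x ∈ derivedSet^[m] TT, B ≤ x := by
  refine rank_of_companion TT (fun B => ?_) B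
  have h1 : ∀ m, ∃ K : ℝ, TN m ∩ Set.Iio B ⊆ LL K := by
    intro m
    rw [TN_eq, FormSet'_eq (trf_bihom m) (VP m) (VP_cone m) (trf_ani m)]
    exact bounded_companion (trf_bihom m) (by norm_num) (VP m) (VP_cone m) (trf_ani m) B
  choose K hK using h1
  set S := Finset.range (⌊B⌋₊ + 1) with hS
  refine ⟨∑ m ∈ S, |K m|, ?_⟩
  rintro x ⟨hx, hxB⟩
  have h2 := TT_small hx (le_of_lt hxB)
  rw [Set.mem_iUnion₂] at h2
  obtain ⟨m, hm, hxm⟩ := h2
  refine LL_mono ?_ (hK m ⟨hxm, hxB⟩)
  exact (le_abs_self _).trans (Finset.single_le_sum (f := fun m => |K m|)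
    (fun m _ => abs_nonneg _) hm)

end

end Pool.Agent.T9h56.SQ
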