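import Pool.Agent.T9h56.MT.Vec

/-!
# Heights of vectors of polynomials with respect to a continuous metric
-/

set_option autoImplicit false

namespace Pool.Agent.T9h56.SQ

open Polynomial Filter MeasureTheory Topology Pool.Agent.H261R2.CM Pool.Agent.T9h56.MT

noncomputable section

/-! ### the limit theorem for vectors (following the starting file `K2c`) -/

theorem pt (x y δ : ℝ) (hx : 0 < x) (hxy : x ^ 2 ≤ y) (hδ : 0 < δ) :
    0 ≤ Real.log (y + δ) - Real.log y ∧
      Real.log (y + δ) - Real.log y ≤ Real.log (x ^ 2 + δ) - 2 * Real.log x := by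
  have hx2 : 0 < x ^ 2 := by positivity
  have hy : 0 < y := lt_of_lt_of_le hx2 hxy
  have h2 : 2 * Real.log x = Real.log (x ^ 2) := by
    rw [Real.log_pow]; push_cast; ring
  rw [h2, ← Real.log_div (by positivity) hy.ne', ← Real.log_div (by positivity) hx2.ne']
  constructor
  · apply Real.log_nonneg
    rw [le_div_iff₀ hy]
    linarith
  · apply Real.log_le_log (by positivity)
    rw [div_le_div_iff₀ hy hx2]
    nlinarith

theorem gen {α : Type*} [MeasurableSpace α] (μ : Measure α) [IsFiniteMeasure μ]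
    (x y : α → ℝ) (hx0 : ∀ t, 0 ≤ x t) (hxm : Measurable x) (hym : Measurable y)
    (hxy : ∀ t, x t ^ 2 ≤ y t) (K : ℝ) (hK : ∀ t, y t ≤ K) (hne : ∀ᵐ t ∂μ, x t ≠ 0)
    (hint : Integrable (fun t => Real.log (x t)) μ) (δ : ℝ) (hδ : 0 < δ) :
    0 ≤ ∫ t, Real.log (y t + δ) ∂μ - ∫ t, Real.log (y t) ∂μ ∧
      ∫ t, Real.log (y t + δ) ∂μ - ∫ t, Real.log (y t) ∂μ ≤
        ∫ t, (Real.log (x t ^ 2 + δ) - 2 * Real.log (x t)) ∂μ := by
  have hy0 : ∀ t, 0 ≤ y t := fun t => (sq_nonneg _).trans (hxy t)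
  have hb : ∀ z : ℝ, 0 ≤ z → z ≤ K → |Real.log (z + δ)| ≤ |Real.log δ| + |Real.log (K + δ)| := by
    intro z hz hzK
    rw [abs_le]
    have h1 : Real.log δ ≤ Real.log (z + δ) := Real.log_le_log hδ (by linarith)
    have h2 : Real.log (z + δ) ≤ Real.log (K + δ) := Real.log_le_log (by positivity) (by linarith)
    constructor
    · linarith [neg_abs_le (Real.log δ), abs_nonneg (Real.log (K + δ))]
    · linarith [le_abs_self (Real.log (K + δ)), abs_nonneg (Real.log δ)]
  have iyd : Integrable (fun t => Real.log (y t + δ)) μ := by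
    refine Integrable.of_bound (Real.measurable_log.comp (hym.add_const δ)).aestronglyMeasurable
      (|Real.log δ| + |Real.log (K + δ)|) (Eventually.of_forall fun t => ?_)
    exact hb _ (hy0 t) (hK t)
  have ixd : Integrable (fun t => Real.log (x t ^ 2 + δ)) μ := by
    refine Integrable.of_bound
      (Real.measurable_log.comp ((hxm.pow_const 2).add_const δ)).aestronglyMeasurable
      (|Real.log δ| + |Real.log (K + δ)|) (Eventually.of_forall fun t => ?_)
    exact hb _ (sq_nonneg _) ((hxy t).trans (hK t))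
  have iy : Integrable (fun t => Real.log (y t)) μ := by
    refine Integrable.mono' (iyd.abs.add (ixd.sub (hint.const_mul 2)).abs)
      (Real.measurable_log.comp hym).aestronglyMeasurable ?_
    filter_upwards [hne] with t ht
    have h := pt (x t) (y t) δ (lt_of_le_of_ne (hx0 t) (Ne.symm ht)) (hxy t) hδ
    simp only [Pi.add_apply, Pi.sub_apply]
    rw [Real.norm_eq_abs]
    have e : Real.log (y t) = Real.log (y t + δ) - (Real.log (y t + δ) - Real.log (y t)) := by ring
    have h3 : |Real.log (y t + δ) - Real.log (y t)| ≤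
        |Real.log (x t ^ 2 + δ) - 2 * Real.log (x t)| := by
      rw [abs_of_nonneg h.1]
      exact h.2.trans (le_abs_self _)
    calc |Real.log (y t)| = |Real.log (y t + δ) - (Real.log (y t + δ) - Real.log (y t))| := by
          rw [← e]
      _ ≤ |Real.log (y t + δ)| + |Real.log (y t + δ) - Real.log (y t)| := abs_sub _ _
      _ ≤ _ := by linarith
  rw [← integral_sub iyd iy]
  constructor
  · apply integral_nonneg_of_ae
    filter_upwards [hne] with t ht
    exact (pt (x t) (y t) δ (lt_of_le_of_ne (hx0 t) (Ne.symm ht)) (hxy t) hδ).1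
  · apply integral_mono_ae (iyd.sub iy) (ixd.sub (hint.const_mul 2))
    filter_upwards [hne] with t ht
    exact (pt (x t) (y t) δ (lt_of_le_of_ne (hx0 t) (Ne.symm ht)) (hxy t) hδ).2

theorem inj {k : ℕ} (𝓕 : Filter ℕ) (e : ℕ → Fin k → ℕ)
    (he : AsympIndep 𝓕 e) (C : MvPolynomial (Fin k) ℤ) :
    ∀ᶠ n in 𝓕, Set.InjOn (fun s : Fin k →₀ ℕ => ∑ i, s i * e n i)
      (C.support : Set (Fin k →₀ ℕ)) := by
  have h1 : ∀ᶠ n in 𝓕, ∀ s ∈ C.support, ∀ s' ∈ C.support, s ≠ s' →
      ∑ i, s i * e n i ≠ ∑ i, s' i * e n i := by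
    rw [eventually_all_finset]
    intro s _
    rw [eventually_all_finset]
    intro s0 _
    by_cases hs : s = s0
    · exact Eventually.of_forall fun n h => absurd hs h
    · have hne : (fun i => (s i : ℤ) - (s0 i : ℤ)) ≠ 0 := by
        intro h
        apply hs
        ext i
        have := congrFun h i
        simp only [Pi.zero_apply] at this
        omega
      filter_upwards [he _ hne] with n hn _ heq
      apply hn
      have h2 : ((∑ i, s i * e n i : ℕ) : ℤ) = ((∑ i, s0 i * e n i : ℕ) : ℤ) := by rw [heq]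
      push_cast at h2
      simp only [sub_mul, Finset.sum_sub_distrib]
      linarith
  filter_upwards [h1] with n hn
  intro s hs s' hs' heq
  by_contra hne
  exact hn s hs s' hs' hne heq

variable {N : ℕ}

/-- The limit formula of Boyd and Lawton for `log ψ(P_1, …, P_N)`. -/
theorem lim_psi {k : ℕ} (𝓕 : Filter ℕ) (e : ℕ → Fin k → ℕ) (he : AsympIndep 𝓕 e)
    (θ : (Fin N → ℂ) → ℝ) (hθ : Continuous θ) (i0 : Fin N) (hge : ∀ v, ‖v i0‖ ^ 2 ≤ θ v)
    (C : Fin N → MvPolynomial (Fin k) ℤ) (hC : C i0 ≠ 0) :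
    Tendsto (fun n => ∫ t in (0:ℝ)..1, Real.log (θ fun i => ev1 (spec (e n) (C i)) t)) 𝓕
      (𝓝 (∫ t in Set.Icc (0 : Fin k → ℝ) 1, Real.log (θ fun i => tv (C i) t))) := by
  obtain ⟨η, hη, hspec⟩ := spec_log_defect (C i0) hC
  have hcG : Continuous fun t : UnitAddTorus (Fin k) => θ fun i => F_G (C i) t :=
    hθ.comp (continuous_pi fun i => (F_G (C i)).continuous)
  have hcT : Continuous fun t : Fin k → ℝ => θ fun i => tv (C i) t :=
    hθ.comp (continuous_pi fun i => F_continuous_tv (C i))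
  have hcE : ∀ n, Continuous fun t : ℝ => θ fun i => ev1 (spec (e n) (C i)) t := fun n =>
    hθ.comp (continuous_pi fun i => D_continuous_ev1 _)
  obtain ⟨K, hK⟩ : ∃ K : ℝ, ∀ t : UnitAddTorus (Fin k), (θ fun i => F_G (C i) t) ≤ K := by
    obtain ⟨K, hK⟩ := (isCompact_range hcG).bddAbove
    exact ⟨K, fun t => hK ⟨t, rfl⟩⟩
  have hcont : ∀ δ : ℝ, 0 < δ → Tendsto (fun n => ∫ t in (0:ℝ)..1,
        Real.log ((θ fun i => ev1 (spec (e n) (C i)) t) + δ)) 𝓕
      (𝓝 (∫ t in Set.Icc (0 : Fin k → ℝ) 1, Real.log ((θ fun i => tv (C i) t) + δ))) := by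
    intro δ hδ
    have hg : Continuous fun x : UnitAddTorus (Fin k) =>
        Real.log ((θ fun i => F_G (C i) x) + δ) := by
      apply Continuous.log
      · exact hcG.add continuous_const
      · intro x
        have := (sq_nonneg _).trans (hge fun i => F_G (C i) x)
        positivity
    have h := F_equidist_real 𝓕 e he _ hg
    simp only [F_ev1, F_tv]
    exact h
  -- the bound on the cube
  have hcube : ∀ δ : ℝ, 0 < δ →
      0 ≤ (∫ t in Set.Icc (0 : Fin k → ℝ) 1, Real.log ((θ fun i => tv (C i) t) + δ)) -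
        ∫ t in Set.Icc (0 : Fin k → ℝ) 1, Real.log (θ fun i => tv (C i) t) ∧
      (∫ t in Set.Icc (0 : Fin k → ℝ) 1, Real.log ((θ fun i => tv (C i) t) + δ)) -
        ∫ t in Set.Icc (0 : Fin k → ℝ) 1, Real.log (θ fun i => tv (C i) t) ≤
      (∫ t in Set.Icc (0 : Fin k → ℝ) 1, Real.log (‖tv (C i0) t‖ ^ 2 + δ)) -
        2 * Real.log (mM (C i0)) := by
    intro δ hδ
    have h := gen ((volume : Measure (Fin k → ℝ)).restrict (Set.Icc (0 : Fin k → ℝ) 1))
      (fun t => ‖tv (C i0) t‖) (fun t => θ fun i => tv (C i) t) (fun t => norm_nonneg _)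
      (F_continuous_tv (C i0)).norm.measurable hcT.measurable
      (fun t => hge fun i => tv (C i) t) K (fun t => by simp only [F_tv]; exact hK _)
      (by filter_upwards [F_zero_null hC] with t ht using norm_ne_zero_iff.mpr ht)
      (F_integrable hC) δ hδ
    refine ⟨h.1, h.2.trans (le_of_eq ?_)⟩
    rw [F_two_log, ← integral_sub (F_cont_f (C i0) δ hδ).integrableOn_Icc
      ((F_integrable hC).const_mul 2)]
  -- the bound in one variable
  have hone : ∀ n, Set.InjOn (fun s : Fin k →₀ ℕ => ∑ i, s i * e n i)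
      ((C i0).support : Set (Fin k →₀ ℕ)) → spec (e n) (C i0) ≠ 0 → ∀ δ : ℝ, 0 < δ →
      0 ≤ (∫ t in (0:ℝ)..1, Real.log ((θ fun i => ev1 (spec (e n) (C i)) t) + δ)) -
        ∫ t in (0:ℝ)..1, Real.log (θ fun i => ev1 (spec (e n) (C i)) t) ∧
      (∫ t in (0:ℝ)..1, Real.log ((θ fun i => ev1 (spec (e n) (C i)) t) + δ)) -
        ∫ t in (0:ℝ)..1, Real.log (θ fun i => ev1 (spec (e n) (C i)) t) ≤ η δ := by
    intro n hinj hne δ hδ
    have hi := (D_intervalIntegrable_log (spec (e n) (C i0)))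
    rw [intervalIntegrable_iff_integrableOn_Ioc_of_le zero_le_one] at hi
    have h := gen ((volume : Measure ℝ).restrict (Set.Ioc (0 : ℝ) 1))
      (fun t => ‖ev1 (spec (e n) (C i0)) t‖)
      (fun t => θ fun i => ev1 (spec (e n) (C i)) t) (fun t => norm_nonneg _)
      (D_continuous_ev1 (spec (e n) (C i0))).norm.measurable (hcE n).measurable
      (fun t => hge fun i => ev1 (spec (e n) (C i)) t) K
      (fun t => by simp only [F_ev1, F_tv]; exact hK _)
      (by
        filter_upwards [ae_restrict_of_ae (D_ae_ne (spec (e n) (C i0)) hne)] with t ht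
          using norm_ne_zero_iff.mpr ht)
      hi δ hδ
    simp only [← intervalIntegral.integral_of_le zero_le_one] at h
    exact ⟨h.1, h.2.trans (hspec (e n) hinj δ hδ).2⟩
  rw [Metric.tendsto_nhds]
  intro ε hε
  -- choose δ
  obtain ⟨δ₀, hδ₀, hδ₀'⟩ := mM_upper (C i0) hC (2 * Real.log (mM (C i0)) + ε / 3) (by linarith)
  have h1 : ∀ᶠ δ in 𝓝[>] (0:ℝ), η δ < ε / 3 := by
    have := (Metric.tendsto_nhds.mp hη) (ε / 3) (by positivity)
    filter_upwards [this] with δ hδ
    rw [Real.dist_eq, sub_zero] at hδ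
    exact lt_of_abs_lt hδ
  have h2 : ∀ᶠ δ in 𝓝[>] (0:ℝ), 0 < δ ∧ δ ≤ δ₀ := by
    filter_upwards [Ioc_mem_nhdsGT hδ₀] with δ hδ
    exact hδ
  obtain ⟨δ, hδ1, hδ, hδ2⟩ := (h1.and h2).exists
  have hz : (∫ t in Set.Icc (0 : Fin k → ℝ) 1, Real.log (‖tv (C i0) t‖ ^ 2 + δ)) <
      2 * Real.log (mM (C i0)) + ε / 3 := by
    refine lt_of_le_of_lt ?_ hδ₀'
    apply integral_mono (F_cont_f (C i0) δ hδ).integrableOn_Icc
      (F_cont_f (C i0) δ₀ hδ₀).integrableOn_Icc
    intro t
    apply Real.log_le_log (by positivity)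
    linarith
  obtain ⟨c1, c2⟩ := hcube δ hδ
  have h3 := (Metric.tendsto_nhds.mp (hcont δ hδ)) (ε / 3) (by positivity)
  filter_upwards [h3, inj 𝓕 e he (C i0), spec_ne_zero 𝓕 e he (C i0) hC] with n hn hinj hne
  obtain ⟨o1, o2⟩ := hone n hinj hne δ hδ
  rw [Real.dist_eq, abs_lt] at hn ⊢
  constructor <;> linarith [hn.1, hn.2]

/-! ### metrics -/

/-- A continuous metric: a continuous function on `ℂ ^ N`, positive outside the origin, with
`ψ (a c) = |a| ψ (c)`. -/
def IsMetric (ψ : (Fin N → ℂ) → ℝ) : Prop :=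
  Continuous ψ ∧ (∀ (a : ℂ) (c : Fin N → ℂ), ψ (a • c) = ‖a‖ * ψ c) ∧ ∀ c, c ≠ 0 → 0 < ψ c

theorem IsMetric.zero {ψ : (Fin N → ℂ) → ℝ} (h : IsMetric ψ) : ψ 0 = 0 := by
  have := h.2.1 0 0
  simpa using this

theorem IsMetric.bounds {ψ : (Fin N → ℂ) → ℝ} (h : IsMetric ψ) :
    ∃ c1 c2 : ℝ, 0 < c1 ∧ 0 < c2 ∧ ∀ v, c1 * ‖v‖ ≤ ψ v ∧ ψ v ≤ c2 * ‖v‖ := by
  obtain ⟨hc, hs, hp⟩ := h
  have h0 : ψ 0 = 0 := IsMetric.zero ⟨hc, hs, hp⟩
  have key : ∀ v : Fin N → ℂ, v ≠ 0 → ∃ u : Fin N → ℂ, u ∈ Metric.sphere (0 : Fin N → ℂ) 1 ∧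
      ψ v = ‖v‖ * ψ u := by
    intro v hv
    have hn : ‖v‖ ≠ 0 := norm_ne_zero_iff.2 hv
    refine ⟨((‖v‖⁻¹ : ℝ) : ℂ) • v, ?_, ?_⟩
    · rw [mem_sphere_zero_iff_norm, norm_smul, Complex.norm_real, norm_inv, norm_norm,
        inv_mul_cancel₀ hn]
    · rw [hs, Complex.norm_real, norm_inv, norm_norm, ← mul_assoc, mul_inv_cancel₀ hn, one_mul]
  by_cases hne : (Metric.sphere (0 : Fin N → ℂ) 1).Nonempty
  · obtain ⟨u1, hu1, h1⟩ := (isCompact_sphere (0 : Fin N → ℂ) 1).exists_isMinOn hne hc.continuousOn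
    obtain ⟨u2, hu2, h2⟩ := (isCompact_sphere (0 : Fin N → ℂ) 1).exists_isMaxOn hne hc.continuousOn
    have hu : ∀ u ∈ Metric.sphere (0 : Fin N → ℂ) 1, u ≠ 0 := by
      rintro u hu rfl
      rw [mem_sphere_zero_iff_norm, norm_zero] at hu
      exact zero_ne_one hu
    refine ⟨ψ u1, ψ u2, hp _ (hu _ hu1), hp _ (hu _ hu2), fun v => ?_⟩
    by_cases hv : v = 0
    · rw [hv, h0]
      simp
    · obtain ⟨u, hu3, hu4⟩ := key v hv
      rw [hu4]
      have h3 := h1 hu3
      have h4 := h2 hu3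
      simp only [Set.mem_ofPred_eq] at h3 h4
      constructor
      · rw [mul_comm]
        exact mul_le_mul_of_nonneg_left h3 (norm_nonneg _)
      · rw [mul_comm (ψ u2)]
        exact mul_le_mul_of_nonneg_left h4 (norm_nonneg _)
  · refine ⟨1, 1, one_pos, one_pos, fun v => ?_⟩
    have hv : v = 0 := by
      by_contra hv
      obtain ⟨u, hu, _⟩ := key v hv
      exact hne ⟨u, hu⟩
    rw [hv, h0]
    simp

/-- the height of a vector of one-variable polynomials -/
def H1 (ψ : (Fin N → ℂ) → ℝ) (a : Fin N → ℤ[X]) : ℝ :=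
  ∫ t in (0:ℝ)..1, Real.log (ψ fun i => ev1 (a i) t)

/-- the height of a vector of polynomials -/
def Hk (ψ : (Fin N → ℂ) → ℝ) {k : ℕ} (C : Fin N → MvPolynomial (Fin k) ℤ) : ℝ :=
  ∫ t in Set.Icc (0 : Fin k → ℝ) 1, Real.log (ψ fun i => tv (C i) t)

theorem nonzero_of_ne {ι : Type*} {M : Type*} [Zero M] {v : ι → M} (i : ι) (h : v i ≠ 0) : v ≠ 0 := by
  rintro rfl
  exact h rfl

theorem H1_integrable {ψ : (Fin N → ℂ) → ℝ} (h : IsMetric ψ) (a : Fin N → ℤ[X]) (i : Fin N)
    (hi : a i ≠ 0) :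
    IntervalIntegrable (fun t => Real.log (ψ fun i => ev1 (a i) t)) volume 0 1 := by
  obtain ⟨c1, c2, hc1, hc2, hb⟩ := h.bounds
  have hcont : Continuous fun t => ψ fun i => ev1 (a i) t :=
    h.1.comp (continuous_pi fun i => D_continuous_ev1 (a i))
  have h1 : IntervalIntegrable (fun t => Real.log (c1 * ‖ev1 (a i) t‖)) volume 0 1 := by
    have h2 : IntervalIntegrable (fun t => Real.log c1 + Real.log ‖ev1 (a i) t‖) volume 0 1 :=
      (intervalIntegrable_const).add (D_intervalIntegrable_log (a i))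
    refine h2.congr_ae ?_
    refine ae_restrict_of_ae ?_
    filter_upwards [D_ae_ne (a i) hi] with t ht
    rw [Real.log_mul hc1.ne' (norm_ne_zero_iff.2 ht)]
  refine int_log_of_le h1 (fun t => ?_) hcont ?_
  · refine le_trans ?_ (hb _).1
    exact mul_le_mul_of_nonneg_left (norm_le_pi_norm (fun i => ev1 (a i) t : Fin N → ℂ) i) hc1.le
  · filter_upwards [ae_pos hi] with t ht htm
    exact mul_pos hc1 (ht htm)

theorem H1_mul {ψ : (Fin N → ℂ) → ℝ} (h : IsMetric ψ) (Q : ℤ[X]) (hQ : Q ≠ 0)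
    (a b : Fin N → ℤ[X]) (i : Fin N) (hi : a i ≠ 0) (hb : ∀ i, b i = Q * a i) :
    H1 ψ b = Real.log (m1 Q) + H1 ψ a := by
  unfold H1
  rw [D_log_m1, ← intervalIntegral.integral_add (D_intervalIntegrable_log Q)
    (H1_integrable h a i hi)]
  refine intervalIntegral.integral_congr_ae ?_
  filter_upwards [D_ae_ne Q hQ, D_ae_ne (a i) hi] with t h1 h2 _
  have h3 : (fun i => ev1 (b i) t) = ev1 Q t • (fun i => ev1 (a i) t) := by
    funext j
    rw [hb j, I1_ev1_mul]
    rfl
  have h4 : 0 < ψ fun i => ev1 (a i) t := h.2.2 _ (nonzero_of_ne i h2)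
  rw [h3, h.2.1, Real.log_mul (norm_ne_zero_iff.2 h1) h4.ne']

/-- the height of a primitive vector bounds the height for the sup norm -/
theorem hv_le_H1 {ψ : (Fin N → ℂ) → ℝ} (h : IsMetric ψ) : ∃ c : ℝ, ∀ (a : Fin N → ℤ[X]),
    (∃ i, a i ≠ 0) → hv a ≤ H1 ψ a + c := by
  obtain ⟨c1, c2, hc1, hc2, hb⟩ := h.bounds
  refine ⟨-Real.log c1, fun a ha => ?_⟩
  obtain ⟨i, hi⟩ := ha
  have h1 : hv a + Real.log c1 ≤ H1 ψ a := by
    have h2 : hv a + Real.log c1 = ∫ t in (0:ℝ)..1, (Real.log (vn a t) + Real.log c1) := by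
      rw [intervalIntegral.integral_add (hv_integrable a i hi) intervalIntegrable_const]
      simp [hv]
    rw [h2]
    unfold H1
    refine intervalIntegral.integral_mono_ae zero_le_one
      ((hv_integrable a i hi).add intervalIntegrable_const) (H1_integrable h a i hi) ?_
    filter_upwards [D_ae_ne (a i) hi] with t ht
    have h3 : 0 < vn a t := lt_of_lt_of_le (norm_pos_iff.2 ht) (le_vn a i t)
    rw [← Real.log_mul h3.ne' hc1.ne']
    refine Real.log_le_log (mul_pos h3 hc1) ?_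
    rw [mul_comm]
    exact (hb _).1
  linarith

/-- the limit formula -/
theorem H_lim {ψ : (Fin N → ℂ) → ℝ} (h : IsMetric ψ) {k : ℕ} (𝓕 : Filter ℕ) (e : ℕ → Fin k → ℕ)
    (he : AsympIndep 𝓕 e) (C : Fin N → MvPolynomial (Fin k) ℤ) (hC : ∃ i, C i ≠ 0) :
    Tendsto (fun n => H1 ψ fun i => spec (e n) (C i)) 𝓕 (𝓝 (Hk ψ C)) := by
  obtain ⟨i0, hi0⟩ := hC
  obtain ⟨c1, c2, hc1, hc2, hb⟩ := h.bounds
  set θ : (Fin N → ℂ) → ℝ := fun v => (c1⁻¹ * ψ v) ^ 2 with hθ
  have hge : ∀ v, ‖v i0‖ ^ 2 ≤ θ v := by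
    intro v
    simp only [hθ]
    refine pow_le_pow_left₀ (norm_nonneg _) ?_ 2
    have h1 := (hb v).1
    have h2 := norm_le_pi_norm v i0
    have h3 : ‖v‖ ≤ c1⁻¹ * ψ v := by
      rw [inv_mul_eq_div, le_div_iff₀ hc1, mul_comm]
      exact h1
    exact h2.trans h3
  have h1 := lim_psi 𝓕 e he θ ((h.1.const_mul _).pow 2) i0 hge C hi0
  have hlog : ∀ x : ℝ, 0 < x → Real.log ((c1⁻¹ * x) ^ 2) = 2 * Real.log x - 2 * Real.log c1 := by
    intro x hx
    rw [Real.log_pow, Real.log_mul (inv_ne_zero hc1.ne') hx.ne', Real.log_inv]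
    push_cast
    ring
  have hk : (∫ t in Set.Icc (0 : Fin k → ℝ) 1, Real.log (θ fun i => tv (C i) t)) =
      2 * Hk ψ C - 2 * Real.log c1 := by
    have hvol : (∫ _ in Set.Icc (0 : Fin k → ℝ) 1, (2 * Real.log c1 : ℝ)) = 2 * Real.log c1 := by
      rw [setIntegral_const]
      have : (volume.real (Set.Icc (0 : Fin k → ℝ) 1)) = 1 := by
        rw [Measure.real, Real.volume_Icc_pi]
        simp
      rw [this, one_smul]
    have hint : IntegrableOn (fun t => Real.log (ψ fun i => tv (C i) t)) (Set.Icc (0 : Fin k → ℝ) 1) := by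
      have hcont : Continuous fun t => ψ fun i => tv (C i) t :=
        h.1.comp (continuous_pi fun i => F_continuous_tv (C i))
      obtain ⟨K, hK⟩ := (isCompact_Icc (a := (0 : Fin k → ℝ)) (b := 1)).exists_bound_of_continuousOn
        hcont.continuousOn
      refine Integrable.mono' (((F_integrable hi0).abs.add (integrable_const |Real.log c1|)).add
        (integrable_const (Real.log (|K| + 1)))) ?_ ?_
      · exact (Real.measurable_log.comp hcont.measurable).aestronglyMeasurable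
      · filter_upwards [F_zero_null hi0, ae_restrict_mem measurableSet_Icc] with t ht htI
        have h2 : 0 < ‖tv (C i0) t‖ := norm_pos_iff.mpr ht
        have h3 : c1 * ‖tv (C i0) t‖ ≤ ψ fun i => tv (C i) t :=
          (mul_le_mul_of_nonneg_left (norm_le_pi_norm (fun i => tv (C i) t : Fin N → ℂ) i0)
            hc1.le).trans (hb _).1
        have h4 := Real.log_le_log (mul_pos hc1 h2) h3
        rw [Real.log_mul hc1.ne' h2.ne'] at h4
        have h7 := hK t htI
        rw [Real.norm_eq_abs] at h7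
        have h8 : (ψ fun i => tv (C i) t) ≤ |K| + 1 := by
          have := le_abs_self (ψ fun i => tv (C i) t)
          have := le_abs_self K
          linarith
        have h9 : Real.log (ψ fun i => tv (C i) t) ≤ Real.log (|K| + 1) :=
          Real.log_le_log (lt_of_lt_of_le (mul_pos hc1 h2) h3) h8
        have h10 : 0 ≤ Real.log (|K| + 1) := Real.log_nonneg (by linarith [abs_nonneg K])
        simp only [Pi.add_apply]
        rw [Real.norm_eq_abs, abs_le]
        have h11 := neg_abs_le (Real.log ‖tv (C i0) t‖)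
        have h12 := abs_nonneg (Real.log ‖tv (C i0) t‖)
        have h13 := neg_abs_le (Real.log c1)
        have h14 := abs_nonneg (Real.log c1)
        constructor
        · linarith
        · linarith
    have h2 : 2 * Hk ψ C - 2 * Real.log c1 =
        ∫ t in Set.Icc (0 : Fin k → ℝ) 1, (2 * Real.log (ψ fun i => tv (C i) t) -
          2 * Real.log c1) := by
      rw [integral_sub (hint.const_mul 2) (integrable_const _), hvol]
      congr 1
      unfold Hk
      rw [← integral_const_mul]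
    rw [h2]
    refine integral_congr_ae ?_
    filter_upwards [F_zero_null hi0] with t ht
    exact hlog _ (h.2.2 _ (nonzero_of_ne i0 ht))
  rw [hk] at h1
  have h2 : Tendsto (fun n => 2 * H1 ψ (fun i => spec (e n) (C i)) - 2 * Real.log c1) 𝓕
      (𝓝 (2 * Hk ψ C - 2 * Real.log c1)) := by
    refine h1.congr' ?_
    filter_upwards [spec_ne_zero 𝓕 e he (C i0) hi0] with n hn
    have h3 : 2 * H1 ψ (fun i => spec (e n) (C i)) - 2 * Real.log c1 =
        ∫ t in (0:ℝ)..1, (2 * Real.log (ψ fun i => ev1 (spec (e n) (C i)) t) -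
          2 * Real.log c1) := by
      rw [intervalIntegral.integral_sub ((H1_integrable h (fun i => spec (e n) (C i)) i0 hn).const_mul 2)
        intervalIntegrable_const]
      simp [H1]
    rw [h3]
    refine intervalIntegral.integral_congr_ae ?_
    filter_upwards [D_ae_ne _ hn] with t ht _
    exact hlog _ (h.2.2 _ (nonzero_of_ne i0 ht))
  have h3 := (h2.add_const (2 * Real.log c1)).const_mul (1 / 2)
  have h4 : 1 / 2 * (2 * Hk ψ C - 2 * Real.log c1 + 2 * Real.log c1) = Hk ψ C := by ring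
  rw [h4] at h3
  refine h3.congr fun n => ?_
  ring

end

end Pool.Agent.T9h56.SQ
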