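import Pool.Agent.T9h56.SQ.Forms

/-!
# Coprime companions of the values of forms
-/

set_option autoImplicit false

namespace Pool.Agent.T9h56.SQ

open Filter MeasureTheory Topology Pool.Agent.H261R2.CM Pool.Agent.T9h56.MT

noncomputable section

variable {N : ℕ}

theorem norm_PS_le {k : ℕ} (P : Fin N → MvPolynomial (Fin k) ℤ) (s : Fin N → ℕ)
    (t : Fin (k + 1) → ℝ) :
    ‖tv (PS P s) t‖ ≤ N * ‖(fun i => tv (P i) (fun j => t j.succ) : Fin N → ℂ)‖ := by
  have h1 : tv (PS P s) t = ∑ i, tv (P i) (fun j => t j.succ) * J.zz t 0 ^ s i := by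
    unfold PS
    rw [J.tv_eq, map_sum]
    refine Finset.sum_congr rfl fun i _ => ?_
    rw [map_mul, map_pow, ← J.tv_eq, ← J.tv_eq, J.tv_rename, J.tv_X]
  rw [h1]
  refine (norm_sum_le _ _).trans ?_
  calc ∑ i, ‖tv (P i) (fun j => t j.succ) * J.zz t 0 ^ s i‖
      ≤ ∑ _i : Fin N, ‖(fun i => tv (P i) (fun j => t j.succ) : Fin N → ℂ)‖ := by
        refine Finset.sum_le_sum fun i _ => ?_
        rw [norm_mul, norm_pow, J.norm_zz, one_pow, mul_one]
        exact norm_le_pi_norm (fun i => tv (P i) (fun j => t j.succ) : Fin N → ℂ) i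
    _ = _ := by simp

theorem relPrime_PS {k : ℕ} {P : Fin N → MvPolynomial (Fin k) ℤ} (hP : Prim P)
    {F : MvPolynomial (Fin k) ℤ} (hF : F ≠ 0) {s : Fin N → ℕ} (hs : Function.Injective s) :
    IsRelPrime (MvPolynomial.rename Fin.succ F) (PS P s) := by
  intro R h1 h2
  exact PS_prim hP hs R h2
    (J.degreeOf_zero_of_dvd (J.rename_ne_zero hF) h1 0 (J.degreeOf_zero_rename F))

/-- Values of an anisotropic form have coprime companions of bounded height. -/
theorem companion {Φ : MvPolynomial (Fin N ⊕ Fin N) ℤ} {d₁ d₂ : ℕ}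
    (h : Bihom Φ d₁ d₂) (hd : 0 < d₁ + d₂) (V : Set (Fin N → ℂ)) (hV : IsCone V)
    (hani : ∀ c ∈ V, c ≠ 0 → hval Φ c ≠ 0) :
    ∃ c : ℝ, ∀ x ∈ FormSet Φ V, x ∈ LL (Real.log x + c) := by
  rcases V.eq_empty_or_nonempty with hemp | hne
  · refine ⟨0, ?_⟩
    rintro x ⟨k, P, F, hP, hPV, hF, rfl⟩
    have := hPV 0
    rw [hemp] at this
    exact absurd this (Set.notMem_empty _)
  obtain ⟨c1, c2, hc1, hc2, hb⟩ := (met_isMetric hV hne h hd hani).bounds
  set d := d₁ + d₂ with hd0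
  -- the constant
  set A : ℝ := max 1 ((N / c1) ^ d) with hA
  have hA1 : 1 ≤ A := le_max_left _ _
  refine ⟨Real.log A, ?_⟩
  rintro x ⟨k, P, F, hP, hPV, hF, rfl⟩
  have hF0 := form_ne_zero hani hP hPV hF
  have hs : Function.Injective (fun i : Fin N => (i : ℕ)) := Fin.val_injective
  have hPS0 : PS P (fun i => (i : ℕ)) ≠ 0 := PS_ne_zero P _ hs (Prim.exists_ne hP)
  have hF'0 := J.rename_ne_zero (k := k) hF0
  refine ⟨k + 1, by omega, MvPolynomial.rename Fin.succ F, PS P (fun i => (i : ℕ)) ^ d, hF'0,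
    pow_ne_zero d hPS0, (relPrime_PS hP hF0 hs).pow_right, ?_, (J.mM_rename F).symm⟩
  have hpt : ∀ t, max ‖tv (MvPolynomial.rename Fin.succ F) t‖ ‖tv (PS P (fun i => (i : ℕ)) ^ d) t‖ ≤
      A * ‖tv (MvPolynomial.rename Fin.succ F) t‖ := by
    intro t
    refine max_le ?_ ?_
    · exact le_mul_of_one_le_left (norm_nonneg _) hA1
    · set v : Fin N → ℂ := fun i => tv (P i) (fun j => t j.succ) with hv
      have h1 : ‖tv (PS P (fun i => (i : ℕ)) ^ d) t‖ ≤ (N * ‖v‖) ^ d := by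
        have : tv (PS P (fun i => (i : ℕ)) ^ d) t = tv (PS P (fun i => (i : ℕ))) t ^ d := by
          rw [J.tv_eq, map_pow]
          rfl
        rw [this, norm_pow]
        exact pow_le_pow_left₀ (norm_nonneg _) (norm_PS_le P _ t) d
      have h2 : ‖tv (MvPolynomial.rename Fin.succ F) t‖ = ‖hval Φ v‖ := by
        rw [J.tv_rename, hF]
      have h3 : c1 ^ d * ‖v‖ ^ d ≤ ‖hval Φ v‖ := by
        have h4 := (hb v).1
        have h5 : met V Φ d v ^ d = ‖hval Φ v‖ := by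
          rw [met_of_mem Φ hd (hPV fun j => t j.succ)]
          rw [← Real.rpow_natCast, ← Real.rpow_mul (norm_nonneg _), one_div_mul_cancel, Real.rpow_one]
          have : (0 : ℝ) < (d : ℝ) := by exact_mod_cast hd
          exact this.ne'
        rw [← h5, ← mul_pow]
        exact pow_le_pow_left₀ (by positivity) h4 d
      rw [h2]
      have h6 : (N * ‖v‖) ^ d = (N / c1) ^ d * (c1 ^ d * ‖v‖ ^ d) := by
        rw [div_pow, mul_pow]
        field_simp
      calc ‖tv (PS P (fun i => (i : ℕ)) ^ d) t‖ ≤ (N * ‖v‖) ^ d := h1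
        _ = (N / c1) ^ d * (c1 ^ d * ‖v‖ ^ d) := h6
        _ ≤ (N / c1) ^ d * ‖hval Φ v‖ := mul_le_mul_of_nonneg_left h3 (by positivity)
        _ ≤ A * ‖hval Φ v‖ := mul_le_mul_of_nonneg_right (le_max_right _ _) (norm_nonneg _)
  -- the integral
  unfold mx
  have hint := F_integrable hF'0
  have hint2 : IntegrableOn (fun t => Real.log (max ‖tv (MvPolynomial.rename Fin.succ F) t‖
      ‖tv (PS P (fun i => (i : ℕ)) ^ d) t‖)) (Set.Icc (0 : Fin (k + 1) → ℝ) 1) := by
    have h7 := K4_intk thM thM_cont thM_ge (MvPolynomial.rename Fin.succ F)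
      (PS P (fun i => (i : ℕ)) ^ d) hF'0
    have h8 : ∀ t, Real.log (max ‖tv (MvPolynomial.rename Fin.succ F) t‖
        ‖tv (PS P (fun i => (i : ℕ)) ^ d) t‖) = 1 / 2 * Real.log (thM
          ‖tv (MvPolynomial.rename Fin.succ F) t‖ ‖tv (PS P (fun i => (i : ℕ)) ^ d) t‖) := by
      intro t
      rw [thM_log (norm_nonneg _) (norm_nonneg _)]
      ring
    simp only [h8]
    exact h7.const_mul (1 / 2)
  have h9 : (∫ t in Set.Icc (0 : Fin (k + 1) → ℝ) 1, Real.log (max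
      ‖tv (MvPolynomial.rename Fin.succ F) t‖ ‖tv (PS P (fun i => (i : ℕ)) ^ d) t‖)) ≤
      ∫ t in Set.Icc (0 : Fin (k + 1) → ℝ) 1,
        (Real.log ‖tv (MvPolynomial.rename Fin.succ F) t‖ + Real.log A) := by
    refine integral_mono_ae hint2 (hint.add (integrable_const _)) ?_
    filter_upwards [F_zero_null hF'0] with t ht
    have h10 : 0 < ‖tv (MvPolynomial.rename Fin.succ F) t‖ := norm_pos_iff.2 ht
    have h11 : Real.log (A * ‖tv (MvPolynomial.rename Fin.succ F) t‖) =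
        Real.log A + Real.log ‖tv (MvPolynomial.rename Fin.succ F) t‖ :=
      Real.log_mul (by positivity) h10.ne'
    have h12 := Real.log_le_log (lt_of_lt_of_le h10 (le_max_left _ _)) (hpt t)
    linarith
  rw [integral_add hint (integrable_const _), setIntegral_const, J.vol_cube, one_smul,
    ← log_mM, J.mM_rename] at h9
  exact h9

/-- Sets with companions of bounded height have finite Cantor-Bendixson rank below every bound. -/
theorem rank_of_companion (T : Set ℝ) (h : ∀ B : ℝ, ∃ K : ℝ, T ∩ Set.Iio B ⊆ LL K) (B : ℝ) :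
    ∃ m : ℕ, ∀ x ∈ derivedSet^[m] T, B ≤ x := by
  obtain ⟨K, hK⟩ := h B
  obtain ⟨m, hm⟩ := Pool.Agent.H887R3.LW.finite_rank K
  refine ⟨m, fun x hx => ?_⟩
  by_contra hlt
  push Not at hlt
  have h1 := Pool.Agent.H887R3.LW.iterate_derived_local T B m ⟨hx, hlt⟩
  have h3 := Pool.Agent.H887R3.LW.iterate_derived_mono hK m h1
  rw [hm] at h3
  exact h3

theorem bounded_companion {Φ : MvPolynomial (Fin N ⊕ Fin N) ℤ} {d₁ d₂ : ℕ}
    (h : Bihom Φ d₁ d₂) (hd : 0 < d₁ + d₂) (V : Set (Fin N → ℂ)) (hV : IsCone V)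
    (hani : ∀ c ∈ V, c ≠ 0 → hval Φ c ≠ 0) (B : ℝ) :
    ∃ K : ℝ, FormSet Φ V ∩ Set.Iio B ⊆ LL K := by
  obtain ⟨c, hc⟩ := companion h hd V hV hani
  refine ⟨Real.log B + c, ?_⟩
  rintro x ⟨hx, hxB⟩
  have h1 := hc x hx
  refine LL_mono ?_ h1
  have h2 : 0 < x := lt_of_lt_of_le one_pos (one_le_FormSet hani hx)
  have h3 := Real.log_le_log h2 (le_of_lt hxB)
  linarith

end

end Pool.Agent.T9h56.SQ
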