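import Pool.Agent.T9h56.SQ.Rank

/-!
# Sums of Hermitian squares
-/

set_option autoImplicit false

namespace Pool.Agent.T9h56.SQ

open Filter MeasureTheory Topology Pool.Agent.H261R2.CM Pool.Agent.T9h56.MT

noncomputable section

/-- the form `∑ c_i c̄_i` -/
def sqf (N : ℕ) : MvPolynomial (Fin N ⊕ Fin N) ℤ :=
  ∑ i, MvPolynomial.X (Sum.inl i) * MvPolynomial.X (Sum.inr i)

theorem sqf_bihom (N : ℕ) : Bihom (sqf N) 1 1 := by
  classical
  intro s hs
  unfold sqf at hs
  have h1 := MvPolynomial.support_sum hs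
  rw [Finset.mem_biUnion] at h1
  obtain ⟨i, _, hi⟩ := h1
  have h2 : (MvPolynomial.X (Sum.inl i) * MvPolynomial.X (Sum.inr i) :
      MvPolynomial (Fin N ⊕ Fin N) ℤ) =
      MvPolynomial.monomial (Finsupp.single (Sum.inl i) 1 + Finsupp.single (Sum.inr i) 1) 1 := by
    rw [MvPolynomial.X, MvPolynomial.X, MvPolynomial.monomial_mul, mul_one]
  rw [h2] at hi
  have h3 := MvPolynomial.support_monomial_subset hi
  rw [Finset.mem_singleton] at h3
  rw [h3]
  constructor
  · simp [Finsupp.single_apply]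
  · simp [Finsupp.single_apply]

theorem hval_sqf {N : ℕ} (c : Fin N → ℂ) : hval (sqf N) c = ((∑ i, ‖c i‖ ^ 2 : ℝ) : ℂ) := by
  unfold hval sqf
  rw [MvPolynomial.eval₂_sum]
  push_cast
  refine Finset.sum_congr rfl fun i _ => ?_
  rw [MvPolynomial.eval₂_mul, MvPolynomial.eval₂_X, MvPolynomial.eval₂_X]
  simp only [Sum.elim_inl, Sum.elim_inr]
  rw [Complex.mul_conj, Complex.normSq_eq_norm_sq]
  push_cast
  rfl

theorem norm_hval_sqf {N : ℕ} (c : Fin N → ℂ) : ‖hval (sqf N) c‖ = ∑ i, ‖c i‖ ^ 2 := by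
  rw [hval_sqf, Complex.norm_real, Real.norm_eq_abs, abs_of_nonneg]
  exact Finset.sum_nonneg fun i _ => sq_nonneg _

theorem sqf_ani (N : ℕ) : ∀ c ∈ (Set.univ : Set (Fin N → ℂ)), c ≠ 0 → hval (sqf N) c ≠ 0 := by
  intro c _ hc
  rw [← norm_pos_iff, norm_hval_sqf]
  obtain ⟨i, hi⟩ := Function.ne_iff.1 hc
  have h1 : 0 < ‖c i‖ ^ 2 := by
    have := norm_pos_iff.2 hi
    positivity
  exact lt_of_lt_of_le h1 (Finset.single_le_sum (f := fun i => ‖c i‖ ^ 2)
    (fun i _ => sq_nonneg _) (Finset.mem_univ i))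

/-- the measures of the sums of `N` Hermitian squares of polynomials without common divisor -/
def QN (N : ℕ) : Set ℝ :=
  {x | ∃ (k : ℕ) (P : Fin N → MvPolynomial (Fin k) ℤ) (F : MvPolynomial (Fin k) ℤ), Prim P ∧
    (∀ t, ‖tv F t‖ = ∑ i, ‖tv (P i) t‖ ^ 2) ∧ x = mM F}

/-- the same for all numbers of squares -/
def QQ : Set ℝ := {x | ∃ N, x ∈ QN N}

theorem QN_eq (N : ℕ) : QN N = FormSet (sqf N) Set.univ := by
  ext x
  constructor
  · rintro ⟨k, P, F, hP, hF, hx⟩
    refine ⟨k, P, F, hP, fun t => Set.mem_univ _, fun t => ?_, hx⟩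
    rw [norm_hval_sqf, hF t]
  · rintro ⟨k, P, F, hP, -, hF, hx⟩
    refine ⟨k, P, F, hP, fun t => ?_, hx⟩
    rw [hF t, norm_hval_sqf]

theorem cone_univ (N : ℕ) : IsCone (Set.univ : Set (Fin N → ℂ)) :=
  ⟨isClosed_univ, fun _ _ _ => Set.mem_univ _⟩

theorem closed_QN (N : ℕ) : IsClosed (QN N) := by
  rw [QN_eq]
  exact closed_FormSet (sqf_bihom N) (by norm_num) Set.univ (cone_univ N) (sqf_ani N)

theorem ne_zero_of_sq {k N : ℕ} {P : Fin N → MvPolynomial (Fin k) ℤ}
    {F : MvPolynomial (Fin k) ℤ} (hP : ∃ i, P i ≠ 0) (hF : ∀ t, ‖tv F t‖ = ∑ i, ‖tv (P i) t‖ ^ 2) :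
    F ≠ 0 := by
  rintro rfl
  obtain ⟨i, hi⟩ := hP
  obtain ⟨t, ht⟩ := exists_tv_ne hi
  have h1 := hF t
  have h2 : ‖tv (0 : MvPolynomial (Fin k) ℤ) t‖ = 0 := by simp [tv]
  rw [h2] at h1
  have h3 : 0 < ‖tv (P i) t‖ ^ 2 := by
    have := norm_pos_iff.2 ht
    positivity
  have h4 := Finset.single_le_sum (f := fun i => ‖tv (P i) t‖ ^ 2)
    (fun i _ => sq_nonneg _) (Finset.mem_univ i)
  linarith

/-- The number of terms is at most the measure. -/
theorem card_le_gen {k : ℕ} {ι : Type*} (G : ι → MvPolynomial (Fin k) ℤ)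
    (F : MvPolynomial (Fin k) ℤ) (hF0 : F ≠ 0)
    (s : Finset ι) (hs : s.Nonempty) (hG : ∀ i ∈ s, G i ≠ 0) (d : ℕ)
    (hF : ∀ t, ∑ i ∈ s, ‖tv (G i) t‖ ^ d ≤ ‖tv F t‖) : (s.card : ℝ) ≤ mM F := by
  classical
  obtain ⟨i0, hi0⟩ := hs
  have hc : (0 : ℝ) < s.card := by exact_mod_cast Finset.card_pos.2 ⟨i0, hi0⟩
  have hae : ∀ᵐ t ∂((volume : Measure (Fin k → ℝ)).restrict (Set.Icc 0 1)),
      ∀ i ∈ s, tv (G i) t ≠ 0 := by
    rw [Filter.eventually_all_finset]
    intro i hi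
    exact F_zero_null (hG i hi)
  have h1 : Real.log s.card ≤ Real.log (mM F) := by
    have h2 : (∫ t in Set.Icc (0 : Fin k → ℝ) 1,
        (Real.log s.card + (d / (s.card : ℝ)) * ∑ i ∈ s, Real.log ‖tv (G i) t‖)) ≤
        ∫ t in Set.Icc (0 : Fin k → ℝ) 1, Real.log ‖tv F t‖ := by
      refine integral_mono_ae ((integrable_const _).add
        ((integrable_finsetSum _ fun i hi => F_integrable (hG i hi)).const_mul _))
        (F_integrable hF0) ?_
      filter_upwards [hae] with t ht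
      have h3 := (strictConcaveOn_log_Ioi.concaveOn).le_map_sum (t := s)
        (w := fun _ => 1 / (s.card : ℝ)) (p := fun i => ‖tv (G i) t‖ ^ d)
        (fun i _ => by positivity) (by
          rw [Finset.sum_const, nsmul_eq_mul]
          field_simp) (fun i hi => by
          have := norm_pos_iff.2 (ht i hi)
          exact Set.mem_Ioi.2 (by positivity))
      simp only [smul_eq_mul] at h3
      rw [← Finset.mul_sum, ← Finset.mul_sum] at h3
      have h4 : ∑ i ∈ s, Real.log (‖tv (G i) t‖ ^ d) = d * ∑ i ∈ s, Real.log ‖tv (G i) t‖ := by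
        rw [Finset.mul_sum]
        exact Finset.sum_congr rfl fun i _ => by rw [Real.log_pow]
      rw [h4] at h3
      have h5 : 0 < ∑ i ∈ s, ‖tv (G i) t‖ ^ d := by
        refine Finset.sum_pos (fun i hi => ?_) ⟨i0, hi0⟩
        have := norm_pos_iff.2 (ht i hi)
        positivity
      have h6 : Real.log (1 / (s.card : ℝ) * ∑ i ∈ s, ‖tv (G i) t‖ ^ d) =
          Real.log (∑ i ∈ s, ‖tv (G i) t‖ ^ d) - Real.log s.card := by
        rw [one_div, Real.log_mul (inv_ne_zero hc.ne') h5.ne', Real.log_inv]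
        ring
      rw [h6] at h3
      have h8 := Real.log_le_log h5 (hF t)
      have h9 : 1 / (s.card : ℝ) * (d * ∑ i ∈ s, Real.log ‖tv (G i) t‖) =
          (d / (s.card : ℝ)) * ∑ i ∈ s, Real.log ‖tv (G i) t‖ := by ring
      rw [h9] at h3
      linarith
    rw [integral_add (integrable_const _)
      ((integrable_finsetSum _ fun i hi => F_integrable (hG i hi)).const_mul _),
      integral_const_mul, integral_finsetSum _ fun i hi => F_integrable (hG i hi),
      setIntegral_const, J.vol_cube, one_smul, ← log_mM] at h2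
    have h3 : 0 ≤ ∑ i ∈ s, ∫ t in Set.Icc (0 : Fin k → ℝ) 1, Real.log ‖tv (G i) t‖ := by
      refine Finset.sum_nonneg fun i hi => ?_
      rw [← log_mM]
      exact Real.log_nonneg (one_le_mM _ (hG i hi))
    have h4 : 0 ≤ (d / (s.card : ℝ)) *
        ∑ i ∈ s, ∫ t in Set.Icc (0 : Fin k → ℝ) 1, Real.log ‖tv (G i) t‖ := by positivity
    linarith
  have h2 : 0 < mM F := Real.exp_pos _
  exact (Real.log_le_log_iff hc h2).1 h1

/-- The number of nonzero squares is at most the measure. -/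
theorem card_le {k N : ℕ} (P : Fin N → MvPolynomial (Fin k) ℤ) (F : MvPolynomial (Fin k) ℤ)
    (s : Finset (Fin N)) (hs : s.Nonempty) (hP : ∀ i ∈ s, P i ≠ 0)
    (hF : ∀ t, ‖tv F t‖ = ∑ i, ‖tv (P i) t‖ ^ 2) : (s.card : ℝ) ≤ mM F := by
  obtain ⟨i0, hi0⟩ := hs
  refine card_le_gen P F (ne_zero_of_sq ⟨i0, hP i0 hi0⟩ hF) s ⟨i0, hi0⟩ hP 2 fun t => ?_
  rw [hF t]
  exact Finset.sum_le_sum_of_subset_of_nonneg (Finset.subset_univ s) fun i _ _ => sq_nonneg _

theorem sum_extend {κ ι M : Type*} [Fintype κ] [Fintype ι] [AddCommMonoid M] {R : Type*} [Zero R]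
    (φ : κ → ι) (hφ : Function.Injective φ) (f : κ → R) (g : R → M) (hg : g 0 = 0) :
    ∑ j, g (Function.extend φ f 0 j) = ∑ i, g (f i) := by
  symm
  refine Fintype.sum_of_injective φ hφ _ _ (fun j hj => ?_) fun i => ?_
  · rw [Function.extend_apply']
    · simpa using hg
    · rintro ⟨i, hi⟩
      exact hj ⟨i, hi⟩
  · rw [hφ.extend_apply]

/-- only the number of nonzero squares matters -/
theorem QN_of_card {k N N' : ℕ} {P : Fin N → MvPolynomial (Fin k) ℤ} {F : MvPolynomial (Fin k) ℤ}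
    (hP : Prim P) (hF : ∀ t, ‖tv F t‖ = ∑ i, ‖tv (P i) t‖ ^ 2) (s : Finset (Fin N))
    (hs : ∀ i, i ∉ s → P i = 0) (hN : s.card ≤ N') : mM F ∈ QN N' := by
  classical
  obtain ⟨φ⟩ : Nonempty (s ↪ Fin N') := by
    rw [Function.Embedding.nonempty_iff_card_le]
    simpa using hN
  set f : s → MvPolynomial (Fin k) ℤ := fun i => P i with hf
  set P' : Fin N' → MvPolynomial (Fin k) ℤ := Function.extend φ f 0 with hP'
  refine ⟨k, P', F, fun R hR => ?_, fun t => ?_, rfl⟩
  · apply hP R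
    intro i
    by_cases hi : i ∈ s
    · have h1 := hR (φ ⟨i, hi⟩)
      rw [hP', φ.injective.extend_apply] at h1
      exact h1
    · rw [hs i hi]
      exact dvd_zero R
  · rw [hF t]
    have h1 := sum_extend φ φ.injective f (fun p => ‖tv p t‖ ^ 2) (by simp [tv])
    rw [← hP'] at h1
    rw [h1]
    symm
    refine Fintype.sum_of_injective (Subtype.val : s → Fin N) Subtype.val_injective _ _
      (fun j hj => ?_) fun i => rfl
    have hj' : j ∉ s := fun h => hj ⟨⟨j, h⟩, rfl⟩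
    rw [hs j hj']
    simp [tv]

theorem mem_QN_of_le {x B : ℝ} (hx : x ∈ QQ) (hB : x ≤ B) : x ∈ QN ⌊B⌋₊ := by
  classical
  obtain ⟨N, k, P, F, hP, hF, rfl⟩ := hx
  set s : Finset (Fin N) := Finset.univ.filter fun i => P i ≠ 0 with hs
  have h1 : s.Nonempty := by
    obtain ⟨i, hi⟩ := Prim.exists_ne hP
    exact ⟨i, by simp [hs, hi]⟩
  have h2 := card_le P F s h1 (fun i hi => by simpa [hs] using hi) hF
  exact QN_of_card hP hF s (fun i hi => by simpa [hs] using hi) (Nat.le_floor (h2.trans hB))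

theorem closed_QQ : IsClosed QQ := by
  refine IsSeqClosed.isClosed ?_
  intro x μ hx hlim
  obtain ⟨B, hB⟩ := hlim.bddAbove_range
  refine ⟨⌊B⌋₊, ?_⟩
  exact (closed_QN _).mem_of_tendsto hlim
    (Eventually.of_forall fun n => mem_QN_of_le (hx n) (hB ⟨n, rfl⟩))

/-- the gap -/
theorem gap_QQ {x : ℝ} (hx : x ∈ QQ) : x = 1 ∨ 2 ≤ x := by
  classical
  obtain ⟨N, k, P, F, hP, hF, rfl⟩ := hx
  set s : Finset (Fin N) := Finset.univ.filter fun i => P i ≠ 0 with hs
  have h1 : s.Nonempty := by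
    obtain ⟨i, hi⟩ := Prim.exists_ne hP
    exact ⟨i, by simp [hs, hi]⟩
  by_cases h2 : 2 ≤ s.card
  · right
    have h3 := card_le P F s h1 (fun i hi => by simpa [hs] using hi) hF
    exact le_trans (by exact_mod_cast h2) h3
  · left
    have h3 : s.card = 1 := by
      have := Finset.card_pos.2 h1
      omega
    obtain ⟨i0, hi0⟩ := Finset.card_eq_one.1 h3
    have hz : ∀ i, i ≠ i0 → P i = 0 := by
      intro i hi
      by_contra hne
      have : i ∈ s := by simp [hs, hne]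
      rw [hi0, Finset.mem_singleton] at this
      exact hi this
    have hu : IsUnit (P i0) := by
      apply hP
      intro i
      by_cases hi : i = i0
      · rw [hi]
      · rw [hz i hi]
        exact dvd_zero _
    have h4 : ∀ t, ‖tv F t‖ = 1 := by
      intro t
      rw [hF t, Finset.sum_eq_single i0]
      · rw [J.norm_tv_isUnit hu t, one_pow]
      · intro i _ hi
        rw [hz i hi]
        simp [tv]
      · intro h
        exact absurd (Finset.mem_univ _) h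
    unfold mM
    simp [h4]

theorem rank_QQ (B : ℝ) : ∃ m : ℕ, ∀ x ∈ derivedSet^[m] QQ, B ≤ x := by
  refine rank_of_companion QQ (fun B => ?_) B
  obtain ⟨K, hK⟩ := bounded_companion (sqf_bihom ⌊B⌋₊) (by norm_num) Set.univ
    (cone_univ ⌊B⌋₊) (sqf_ani ⌊B⌋₊) B
  refine ⟨K, ?_⟩
  rintro x ⟨hx, hxB⟩
  apply hK
  refine ⟨?_, hxB⟩
  rw [← QN_eq]
  exact mem_QN_of_le hx (le_of_lt hxB)

end

end Pool.Agent.T9h56.SQ
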